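import Mathlib

/-!
# Randomized integration of smooth functions: definitions and the statements of the parts
Project RI (helper799), MP_7d5d9e_an.
-/

set_option autoImplicit false

namespace Pool.Agent.N799.RI

open MeasureTheory Finset

/-- bounded and measurable -/
def BM {X : Type} [MeasurableSpace X] (g : X → ℝ) : Prop := Measurable g ∧ ∃ B : ℝ, ∀ x, |g x| ≤ B

/-- the uniform distribution on `(0, 1)` -/
noncomputable def I1 : Measure ℝ := volume.restrict (Set.Ioo 0 1)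

instance : IsProbabilityMeasure I1 := ⟨by simp [I1]⟩

/-- the uniform distribution on the cube -/
noncomputable def Qd (d : ℕ) : Measure (Fin d → ℝ) := Measure.pi fun _ => I1

instance (d : ℕ) : IsProbabilityMeasure (Qd d) := by unfold Qd; infer_instance

/-- orthonormal on a finite set of indices -/
def ON {X ι : Type} [MeasurableSpace X] (lam : Measure X) (b : ι → X → ℝ) (M : Finset ι) : Prop :=
  (∀ i ∈ M, BM (b i)) ∧ (∀ i ∈ M, ∫ x, b i x ^ 2 ∂lam = 1) ∧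
    ∀ i ∈ M, ∀ j ∈ M, i ≠ j → ∫ x, b i x * b j x ∂lam = 0

/-- the square of the distance to the span of `b m`, `m ∈ M` -/
noncomputable def Ds {X ι : Type} [MeasurableSpace X] (lam : Measure X) (b : ι → X → ℝ) (M : Finset ι)
    (g : X → ℝ) : ℝ := ∫ x, g x ^ 2 ∂lam - ∑ m ∈ M, (∫ x, g x * b m x ∂lam) ^ 2

/-- a randomized linear approximation method with `n` function values -/
def HasScheme {X : Type} [MeasurableSpace X] (lam : Measure X) {ι : Type} (b : ι → X → ℝ)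
    (G : Set (X → ℝ)) (J : Finset ι) (n : ℕ) (a : ℝ) : Prop :=
  ∃ (Ω : Type) (_ : MeasurableSpace Ω) (P : Measure Ω) (_ : IsProbabilityMeasure P)
    (pts : Fin n → Ω → X) (c : Fin n → ι → Ω → ℝ),
    (∀ k, Measurable (pts k)) ∧ (∀ k m, BM (c k m)) ∧
    ∀ g ∈ G, ∫ ω, (∫ x, (g x - ∑ k, g (pts k ω) * ∑ m ∈ J, c k m ω * b m x) ^ 2 ∂lam) ∂P ≤ a

/-- the variance of the mean -/
def S_VAR : Prop := ∀ (X : Type) [MeasurableSpace X] (ν : Measure X) [IsProbabilityMeasure ν] (h : X → ℝ),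
  BM h → ∀ N : ℕ, 1 ≤ N →
  ∫ y : Fin N → X, ((1 / (N : ℝ)) * ∑ i, h (y i) - ∫ x, h x ∂ν) ^ 2 ∂(Measure.pi fun _ => ν) ≤
    (1 / (N : ℝ)) * ∫ x, h x ^ 2 ∂ν

/-- expansion of the square of the norm of `g - ∑ c m b m` -/
def S_EXP : Prop := ∀ (X : Type) [MeasurableSpace X] (lam : Measure X) [IsProbabilityMeasure lam] (ι : Type)
  (b : ι → X → ℝ) (M : Finset ι), ON lam b M → ∀ (g : X → ℝ), BM g → ∀ c : ι → ℝ,
    ∫ x, (g x - ∑ m ∈ M, c m * b m x) ^ 2 ∂lam = Ds lam b M g + ∑ m ∈ M, (c m - ∫ x, g x * b m x ∂lam) ^ 2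

/-- one step of the randomized approximation -/
def S_STEP1 : Prop := ∀ (X : Type) [MeasurableSpace X] (lam : Measure X) [IsProbabilityMeasure lam] (ι : Type)
  (b : ι → X → ℝ) (M : Finset ι), ON lam b M → M.Nonempty → ∀ N : ℕ, 1 ≤ N →
  ∃ (ν : Measure X) (_ : IsProbabilityMeasure ν) (κ : X → ι → ℝ), (∀ m, BM fun y => κ y m) ∧
    ∀ g : X → ℝ, BM g →
      ∫ y : Fin N → X, (∫ x, (g x - ∑ i, g (y i) * ∑ m ∈ M, κ (y i) m * b m x) ^ 2 ∂lam)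
          ∂(Measure.pi fun _ => ν) ≤
        Ds lam b M g + 2 * M.card / (N : ℝ) * ∫ x, g x ^ 2 ∂lam

/-- the recursion -/
def S_STEP : Prop := ∀ (X : Type) [MeasurableSpace X] (lam : Measure X) [IsProbabilityMeasure lam] (ι : Type)
  (b : ι → X → ℝ) (G : Set (X → ℝ)) (J J' : Finset ι) (n N : ℕ) (a s : ℝ),
  J ⊆ J' → J'.Nonempty → ON lam b J' → 1 ≤ N → (∀ g ∈ G, BM g) → (∀ g ∈ G, Ds lam b J' g ≤ s) →
  HasScheme lam b G J n a → HasScheme lam b G J' (n + N) (s + 2 * J'.card / (N : ℝ) * a)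

/-- the quadrature formula -/
def S_QUAD : Prop := ∀ (X : Type) [MeasurableSpace X] (lam : Measure X) [IsProbabilityMeasure lam] (ι : Type)
  (b : ι → X → ℝ) (G : Set (X → ℝ)) (J : Finset ι) (n N : ℕ) (a : ℝ),
  (∀ m ∈ J, BM (b m)) → 1 ≤ N → 0 ≤ a → (∀ g ∈ G, BM g) → HasScheme lam b G J n a →
  ∃ (Ω : Type) (_ : MeasurableSpace Ω) (P : Measure Ω) (_ : IsProbabilityMeasure P)
    (pts : Fin (n + N) → Ω → X) (w : Fin (n + N) → Ω → ℝ),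
    (∀ k, Measurable (pts k)) ∧ (∀ k, BM (w k)) ∧
    ∀ g ∈ G, ∫ ω, |∫ x, g x ∂lam - ∑ k, w k ω * g (pts k ω)| ∂P ≤ Real.sqrt (a / N)

/-- Gram-Schmidt orthogonalization of bounded measurable functions -/
def S_GS : Prop := ∀ (X : Type) [MeasurableSpace X] (lam : Measure X) [IsProbabilityMeasure lam]
  (g : ℕ → X → ℝ), (∀ m, BM (g m)) →
  ∃ e : ℕ → X → ℝ, (∀ m, BM (e m)) ∧ (∀ m m', m ≠ m' → ∫ x, e m x * e m' x ∂lam = 0) ∧
    (∀ m, ∫ x, e m x ^ 2 ∂lam = 1 ∨ ∀ x, e m x = 0) ∧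
    (∀ j m, j < m → ∫ x, g j x * e m x ∂lam = 0) ∧
    (∀ m, ∃ c : ℕ → ℝ, ∀ᵐ x ∂lam, g m x = ∑ j ∈ range (m + 1), c j * e j x)

/-- dyadic intervals -/
def dy (l j : ℕ) : Set ℝ := Set.Ico ((j : ℝ) / 2 ^ l) (((j : ℝ) + 1) / 2 ^ l)

/-- an orthonormal system on `(0, 1)` adapted to the piecewise polynomials of degree less than `k` on the
dyadic intervals; some members may be zero -/
structure IsBasis (k : ℕ) (e : ℕ → ℝ → ℝ) : Prop where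
  bm : ∀ m, BM (e m)
  orth : ∀ m m', m ≠ m' → ∫ t, e m t * e m' t ∂I1 = 0
  norm : ∀ m, ∫ t, e m t ^ 2 ∂I1 = 1 ∨ ∀ t, e m t = 0
  tail : ∀ l j a m, j < 2 ^ l → a < k → k * 2 ^ l ≤ m →
    ∫ t, (dy l j).indicator (fun t => t ^ a) t * e m t ∂I1 = 0
  span : ∀ l j, j < 2 ^ l → ∃ c : ℕ → ℝ, ∀ᵐ t ∂I1,
    (dy l j).indicator (fun _ => (1 : ℝ)) t = ∑ m ∈ range (k * 2 ^ l), c m * e m t

def S_BASIS : Prop := ∀ k : ℕ, 1 ≤ k → ∃ e : ℕ → ℝ → ℝ, IsBasis k e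

/-- tensor products -/
def EE {d : ℕ} (e : ℕ → ℝ → ℝ) (m : Fin d → ℕ) (x : Fin d → ℝ) : ℝ := ∏ i, e (m i) (x i)

/-- the norm of `EE e m` is one -/
def Good {d : ℕ} (e : ℕ → ℝ → ℝ) (m : Fin d → ℕ) : Prop := ∀ i, ∫ t, e (m i) t ^ 2 ∂I1 = 1

/-- the penalty function -/
def vv (k L m : ℕ) : ℕ := ∑ l ∈ (range (m + 1)).filter (fun l => L ≤ l ∧ k * 2 ^ l ≤ m), 2 ^ (l - L)

/-- the box of multi-indices -/
def Box (d K : ℕ) : Finset (Fin d → ℕ) := Fintype.piFinset fun _ => range K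

/-- the multi-indices used at level `L` -/
noncomputable def JJ (k d : ℕ) (e : ℕ → ℝ → ℝ) (L : ℕ) : Finset (Fin d → ℕ) := by
  classical
  exact (Box d (k * 2 ^ (L + d))).filter fun m => (∑ i, vv k L (m i) ≤ d) ∧ Good e m

/-- counting -/
def S_COUNT : Prop := ∀ k d L : ℕ, 1 ≤ k → 1 ≤ d →
  ((Box d (k * 2 ^ (L + d))).filter fun m => ∑ i, vv k L (m i) ≤ d).card ≤ (6 * k * 2 ^ L) ^ d

/-- integration over one more variable -/
def S_UPD : Prop := ∀ (d : ℕ) (i : Fin d) (F : (Fin d → ℝ) → ℝ), BM F →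
  ∫ x, (∫ t, F (Function.update x i t) ∂I1) ∂(Qd d) = ∫ x, F x ∂(Qd d)

/-- the tensor products are orthonormal -/
def S_ORTH : Prop := ∀ (k d : ℕ) (e : ℕ → ℝ → ℝ), IsBasis k e → ∀ S : Finset (Fin d → ℕ),
  (∀ m ∈ S, Good e m) → ON (Qd d) (EE e) S

/-- local approximation by polynomials of degree less than `k` in every variable -/
def Tail (k d : ℕ) (e : ℕ → ℝ → ℝ) (g : (Fin d → ℝ) → ℝ) : Prop := ∀ (i : Fin d) (l : ℕ),
  ∃ T : (Fin d → ℝ) → ℝ, BM T ∧ (∀ᵐ x ∂(Qd d), |g x - T x| ≤ (1 / 2 ^ l) ^ k) ∧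
    ∀ m, k * 2 ^ l ≤ m → ∀ x, ∫ t, T (Function.update x i t) * e m t ∂I1 = 0

/-- the tail in the variable `i` -/
def S_TAIL : Prop := ∀ (k d : ℕ) (e : ℕ → ℝ → ℝ), IsBasis k e → ∀ g : (Fin d → ℝ) → ℝ, BM g →
  Tail k d e g → ∀ (i : Fin d) (l : ℕ) (S : Finset (Fin d → ℕ)), (∀ m ∈ S, Good e m ∧ k * 2 ^ l ≤ m i) →
    ∑ m ∈ S, (∫ x, g x * EE e m x ∂(Qd d)) ^ 2 ≤ (1 / 4 ^ l) ^ k

/-- the closed cube -/
def cube (d : ℕ) : Set (Fin d → ℝ) := {x | ∀ i, 0 ≤ x i ∧ x i ≤ 1}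

/-- the open cube -/
def openCube (d : ℕ) : Set (Fin d → ℝ) := {x | ∀ i, 0 < x i ∧ x i < 1}

/-- a Lipschitz condition on the open cube -/
def Lip1 (d : ℕ) (g : (Fin d → ℝ) → ℝ) : Prop :=
  ∀ x ∈ openCube d, ∀ y ∈ openCube d, |g x - g y| ≤ ∑ i, |x i - y i|

open Classical in
/-- completeness -/
def S_COMPL : Prop := ∀ (k d : ℕ) (e : ℕ → ℝ → ℝ), 1 ≤ k → IsBasis k e → ∀ g : (Fin d → ℝ) → ℝ, BM g →
  Lip1 d g → ∀ ε : ℝ, 0 < ε → ∃ H₀ : ℕ, ∀ H, H₀ ≤ H →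
    Ds (Qd d) (EE e) ((Box d (k * 2 ^ H)).filter (Good e)) g ≤ ε

/-- the distance to the span of level `L` -/
def S_DIST : Prop := ∀ (k d : ℕ) (e : ℕ → ℝ → ℝ), 1 ≤ k → 1 ≤ d → IsBasis k e →
  ∀ g : (Fin d → ℝ) → ℝ, BM g → Tail k d e g → Lip1 d g → ∀ L : ℕ,
    Ds (Qd d) (EE e) (JJ k d e L) g ≤ 2 * (1 / 4 ^ L) ^ k

/-- the class `F_d^k` -/
def FF (d k : ℕ) : Set ((Fin d → ℝ) → ℝ) := {f | ContinuousOn f (cube d) ∧ ContDiffOn ℝ k f (openCube d) ∧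
  ∀ j ≤ k, ∀ e : Fin j → Fin d, ∀ x ∈ openCube d,
    |iteratedFDeriv ℝ j f x fun l => Pi.single (e l) 1| ≤ 1}

/-- projection to the cube -/
noncomputable def clamp {d : ℕ} (x : Fin d → ℝ) : Fin d → ℝ := fun i => max 0 (min 1 (x i))

/-- `f (clamp x)` is bounded by `1` and measurable -/
def S_CL : Prop := ∀ (d k : ℕ) (f : (Fin d → ℝ) → ℝ), 1 ≤ d → f ∈ FF d k →
  (Measurable fun x => f (clamp x)) ∧ ∀ x, |f (clamp x)| ≤ 1

/-- the Lipschitz condition -/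
def S_LIP : Prop := ∀ (d k : ℕ) (f : (Fin d → ℝ) → ℝ), 1 ≤ k → f ∈ FF d k → Lip1 d (fun x => f (clamp x))

/-- Taylor's formula in the variable `i` -/
def S_TAY : Prop := ∀ (d k : ℕ) (f : (Fin d → ℝ) → ℝ), 1 ≤ k → f ∈ FF d k → ∀ x ∈ openCube d, ∀ (i : Fin d)
  (p : ℝ), 0 < p → p < 1 →
  |f x - ∑ a ∈ range k, (x i - p) ^ a / a.factorial *
    iteratedFDeriv ℝ a f (Function.update x i p) (fun _ => Pi.single i 1)| ≤ |x i - p| ^ k

/-- the local approximation -/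
def S_TH : Prop := ∀ (d k : ℕ) (e : ℕ → ℝ → ℝ) (f : (Fin d → ℝ) → ℝ), 1 ≤ k → IsBasis k e → f ∈ FF d k →
  Tail k d e (fun x => f (clamp x))

/-- the integral over the cube -/
def S_INT : Prop := ∀ (d : ℕ) (f : (Fin d → ℝ) → ℝ), ∫ x in cube d, f x = ∫ x, f (clamp x) ∂(Qd d)

/-- the upper bound -/
def S_UB : Prop := ∀ k : ℕ, 1 ≤ k → ∃ C : ℝ, 0 < C ∧ ∀ d n : ℕ, 1 ≤ d → 1 ≤ n →
  ∃ (Ω : Type) (_ : MeasurableSpace Ω) (P : Measure Ω) (_ : IsProbabilityMeasure P)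
    (pts : Fin n → Ω → (Fin d → ℝ)) (w : Fin n → Ω → ℝ),
    (∀ j, Measurable (pts j)) ∧ (∀ j ω, pts j ω ∈ cube d) ∧ (∀ j, BM (w j)) ∧
    ∀ f ∈ FF d k, (Measurable fun ω => |(∫ x in cube d, f x) - ∑ j, w j ω * f (pts j ω)|) ∧
      (Integrable (fun ω => |(∫ x in cube d, f x) - ∑ j, w j ω * f (pts j ω)|) P) ∧
      (∫ ω, |(∫ x in cube d, f x) - ∑ j, w j ω * f (pts j ω)| ∂P ≤
      C * (n : ℝ) ^ (-(k : ℝ) / d - 1 / 2))

/-- a deterministic adaptive algorithm: it returns a number or asks for a function value and goes on -/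
inductive Alg (X : Type) : Type
  | out : ℝ → Alg X
  | ask : X → (ℝ → Alg X) → Alg X

/-- the output -/
def Alg.run {X : Type} (f : X → ℝ) : Alg X → ℝ
  | .out r => r
  | .ask x next => (next (f x)).run f

/-- the number of function values used -/
def Alg.card {X : Type} (f : X → ℝ) : Alg X → ℕ
  | .out _ => 0
  | .ask x next => (next (f x)).card f + 1

/-- the upper integral -/
noncomputable def upper {Ω : Type} [MeasurableSpace Ω] (μ : Measure Ω) (g : Ω → ENNReal) : ENNReal :=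
  ⨅ (h : Ω → ENNReal) (_ : Measurable h) (_ : ∀ ω, g ω ≤ h ω), ∫⁻ ω, h ω ∂μ

/-- a randomized algorithm -/
structure RAlg (d : ℕ) where
  Ω : Type
  ms : MeasurableSpace Ω
  μ : Measure Ω
  prob : IsProbabilityMeasure μ
  A : Ω → Alg (cube d)

attribute [instance] RAlg.ms RAlg.prob

/-- the cardinality of a randomized algorithm on a class -/
noncomputable def RAlg.cardOn {d : ℕ} (A : RAlg d) (F : Set ((Fin d → ℝ) → ℝ)) : ENNReal :=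
  ⨆ f ∈ F, upper A.μ fun ω => (((A.A ω).card fun x : cube d => f x : ℕ) : ENNReal)

/-- the error of a randomized algorithm on a class -/
noncomputable def RAlg.err {d : ℕ} (A : RAlg d) (F : Set ((Fin d → ℝ) → ℝ)) : ENNReal :=
  ⨆ f ∈ F, upper A.μ fun ω => ENNReal.ofReal |(∫ x in cube d, f x) - (A.A ω).run fun x : cube d => f x|

/-- `e^ran(n, F_d^k)` -/
noncomputable def eran (n d k : ℕ) : ENNReal := ⨅ (A : RAlg d) (_ : A.cardOn (FF d k) ≤ n), A.err (FF d k)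

/-- a non-adaptive algorithm as an element of `Alg` -/
def S_ALG : Prop := ∀ (X : Type) (n : ℕ) (pts : Fin n → X) (φ : (Fin n → ℝ) → ℝ), ∃ A : Alg X,
  ∀ f : X → ℝ, A.run f = φ (fun i => f (pts i)) ∧ A.card f = n

/-- the functions for the lower bound -/
def S_BUMP : Prop := ∀ k : ℕ, ∃ s : ℝ, 0 < s ∧ ∀ d : ℕ, 1 ≤ d → ∃ f₁ f₂ : (Fin d → ℝ) → ℝ,
  f₁ ∈ FF d k ∧ f₂ ∈ FF d k ∧ (fun x => - f₁ x) ∈ FF d k ∧ (fun x => - f₂ x) ∈ FF d k ∧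
  (fun _ => (0 : ℝ)) ∈ FF d k ∧ (∀ x, f₁ x = 0 ∨ f₂ x = 0) ∧
  (∫ x in cube d, f₁ x = s) ∧ (∫ x in cube d, f₂ x = s)

/-- the lower bound for `n = 1` -/
def S_LB : Prop := ∀ k : ℕ, ∃ c : ℝ, 0 < c ∧ ∀ d : ℕ, 1 ≤ d → ENNReal.ofReal c ≤ eran 1 d k

end Pool.Agent.N799.RI
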