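import Pool.Agent.N799.RI.Def

/-!
# A non-adaptive algorithm as a decision tree
Project RI (helper799); by helper73.
-/

set_option autoImplicit false

namespace Pool.Agent.N799.RI

theorem t_ALG : S_ALG := by
  intro X n
  induction n with
  | zero =>
    intro pts φ
    refine ⟨Alg.out (φ Fin.elim0), fun f => ⟨?_, rfl⟩⟩
    show φ Fin.elim0 = φ fun i => f (pts i)
    congr 1
    funext i
    exact i.elim0
  | succ n ih =>
    intro pts φ
    choose A hA using fun y : ℝ => ih (fun i => pts i.succ) (fun v => φ (Fin.cons y v))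
    refine ⟨Alg.ask (pts 0) A, fun f => ?_⟩
    obtain ⟨h1, h2⟩ := hA (f (pts 0)) f
    refine ⟨?_, ?_⟩
    · show (A (f (pts 0))).run f = _
      rw [h1]
      congr 1
      funext i
      refine Fin.cases ?_ (fun j => ?_) i
      · rfl
      · rfl
    · show (A (f (pts 0))).card f + 1 = n + 1
      rw [h2]

end Pool.Agent.N799.RI
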