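import Pool.Agent.N799.RI.Def

/-!
Project RI (helper799), part BASIS (helper169): the adapted orthonormal system on `(0, 1)`.
-/

set_option autoImplicit false

namespace Pool.Agent.N799.RI

open MeasureTheory Finset

namespace LBASIS

/-- a monomial on a dyadic interval -/
noncomputable def hh (l j a : ℕ) : ℝ → ℝ := (dy l j).indicator (fun t => t ^ a)

/-- the functions to be orthogonalized, by blocks -/
noncomputable def GG : ℕ → ℕ → ℝ → ℝ
  | 0, a => hh 0 0 a
  | (q + 1), a => hh (Nat.log 2 (q + 1) + 1) (2 * (q + 1 - 2 ^ Nat.log 2 (q + 1))) a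

/-- the functions to be orthogonalized -/
noncomputable def gg (k m : ℕ) : ℝ → ℝ := GG (m / k) (m % k)

theorem bm_hh (l j a : ℕ) : BM (hh l j a) := by
  classical
  refine ⟨(measurable_id.pow_const a).indicator measurableSet_Ico, ((j : ℝ) + 1) ^ a, fun t => ?_⟩
  unfold hh
  rw [Set.indicator_apply]
  split_ifs with h
  · obtain ⟨h1, h2⟩ := h
    have hp : (0 : ℝ) < 2 ^ l := by positivity
    have hp1 : (1 : ℝ) ≤ 2 ^ l := one_le_pow₀ (by norm_num)
    have h3 : 0 ≤ t := le_trans (by positivity) h1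
    have h4 : t ≤ (j : ℝ) + 1 := by
      refine h2.le.trans ?_
      rw [div_le_iff₀ hp]
      have : (0 : ℝ) ≤ (j : ℝ) + 1 := by positivity
      nlinarith
    rw [abs_of_nonneg (pow_nonneg h3 a)]
    exact pow_le_pow_left₀ h3 h4 a
  · rw [abs_zero]
    positivity

theorem bm_gg (k m : ℕ) : BM (gg k m) := by
  unfold gg
  generalize m / k = q
  cases q with
  | zero => exact bm_hh _ _ _
  | succ q => exact bm_hh _ _ _

theorem gg_small {k a : ℕ} (ha : a < k) : gg k a = hh 0 0 a := by
  unfold gg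
  rw [Nat.div_eq_of_lt ha, Nat.mod_eq_of_lt ha]
  rfl

theorem gg_big {k a l j : ℕ} (ha : a < k) (hj : j < 2 ^ l) :
    gg k (k * (2 ^ l + j) + a) = hh (l + 1) (2 * j) a := by
  have hk : 0 < k := by omega
  have h1 : (k * (2 ^ l + j) + a) / k = 2 ^ l + j := by
    rw [Nat.mul_add_div hk, Nat.div_eq_of_lt ha, add_zero]
  have h2 : (k * (2 ^ l + j) + a) % k = a := by
    rw [Nat.mul_add_mod, Nat.mod_eq_of_lt ha]
  have h3 : Nat.log 2 (2 ^ l + j) = l := by
    rw [Nat.log_eq_iff (Or.inr ⟨by norm_num, by positivity⟩)]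
    refine ⟨by omega, ?_⟩
    rw [pow_succ]
    omega
  unfold gg
  rw [h1, h2]
  have h0 : 0 < 2 ^ l + j := by positivity
  obtain ⟨q, hq⟩ : ∃ q, 2 ^ l + j = q + 1 := ⟨2 ^ l + j - 1, by omega⟩
  rw [hq]
  show hh (Nat.log 2 (q + 1) + 1) (2 * (q + 1 - 2 ^ Nat.log 2 (q + 1))) a = _
  rw [← hq, h3, Nat.add_sub_cancel_left]

theorem dy_split (l j : ℕ) (t : ℝ) : t ∈ dy l j ↔ (t ∈ dy (l + 1) (2 * j) ∨
    t ∈ dy (l + 1) (2 * j + 1)) := by
  have hp : (0 : ℝ) < 2 ^ l := by positivity
  have hp' : (0 : ℝ) < 2 ^ (l + 1) := by positivity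
  unfold dy
  simp only [Set.mem_Ico, div_le_iff₀ hp, lt_div_iff₀ hp, div_le_iff₀ hp', lt_div_iff₀ hp']
  push_cast
  rw [pow_succ]
  constructor
  · rintro ⟨h1, h2⟩
    rcases lt_or_ge (t * (2 ^ l * 2)) (2 * (j : ℝ) + 1) with h | h
    · left
      exact ⟨by linarith, h⟩
    · right
      exact ⟨h, by linarith⟩
  · rintro (⟨h1, h2⟩ | ⟨h1, h2⟩)
    · exact ⟨by linarith, by linarith⟩
    · exact ⟨by linarith, by linarith⟩

theorem dy_disj (l j : ℕ) (t : ℝ) (h1 : t ∈ dy (l + 1) (2 * j)) (h2 : t ∈ dy (l + 1) (2 * j + 1)) :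
    False := by
  have hp' : (0 : ℝ) < 2 ^ (l + 1) := by positivity
  obtain ⟨-, h3⟩ := h1
  obtain ⟨h4, -⟩ := h2
  rw [lt_div_iff₀ hp'] at h3
  rw [div_le_iff₀ hp'] at h4
  push_cast at h3 h4
  linarith

theorem hh_split (l j a : ℕ) : hh (l + 1) (2 * j + 1) a = hh l j a - hh (l + 1) (2 * j) a := by
  classical
  funext t
  rw [Pi.sub_apply]
  unfold hh
  simp only [Set.indicator_apply]
  have h1 := dy_split l j t
  have h2 := dy_disj l j t
  by_cases ha : t ∈ dy (l + 1) (2 * j) <;> by_cases hb : t ∈ dy (l + 1) (2 * j + 1)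
  · exact (h2 ha hb).elim
  · have : t ∈ dy l j := h1.2 (Or.inl ha)
    simp [ha, hb, this]
  · have : t ∈ dy l j := h1.2 (Or.inr hb)
    simp [ha, hb, this]
  · have : t ∉ dy l j := fun h => (h1.1 h).elim ha hb
    simp [ha, hb, this]

/-- the monomials on the dyadic intervals are linear combinations -/
theorem mem_span (k : ℕ) : ∀ (l j a : ℕ), j < 2 ^ l → a < k →
    hh l j a ∈ Submodule.span ℝ {h : ℝ → ℝ | ∃ m < k * 2 ^ l, h = gg k m}
  | 0, j, a, hj, ha => by
    have : j = 0 := by simpa using hj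
    subst this
    refine Submodule.subset_span ⟨a, by simpa using ha, (gg_small ha).symm⟩
  | l + 1, j', a, hj', ha => by
    have hk : 0 < k := by omega
    have hmono : Submodule.span ℝ {h : ℝ → ℝ | ∃ m < k * 2 ^ l, h = gg k m} ≤
        Submodule.span ℝ {h : ℝ → ℝ | ∃ m < k * 2 ^ (l + 1), h = gg k m} := by
      refine Submodule.span_mono ?_
      rintro h ⟨m, hm, rfl⟩
      refine ⟨m, hm.trans_le ?_, rfl⟩
      exact Nat.mul_le_mul_left k (Nat.pow_le_pow_right (by norm_num) (Nat.le_succ l))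
    have heven : ∀ j, j < 2 ^ l → hh (l + 1) (2 * j) a ∈
        Submodule.span ℝ {h : ℝ → ℝ | ∃ m < k * 2 ^ (l + 1), h = gg k m} := by
      intro j hj
      refine Submodule.subset_span ⟨k * (2 ^ l + j) + a, ?_, (gg_big ha hj).symm⟩
      have h1 : k * (2 ^ l + j) + a < k * (2 ^ l + j + 1) := by
        rw [mul_add k (2 ^ l + j) 1]
        omega
      refine h1.trans_le (Nat.mul_le_mul_left k ?_)
      rw [pow_succ]
      omega
    rw [pow_succ] at hj'
    rcases Nat.even_or_odd' j' with ⟨j, rfl | rfl⟩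
    · exact heven j (by omega)
    · rw [hh_split]
      exact Submodule.sub_mem _ (hmono (mem_span k l j a (by omega) ha)) (heven j (by omega))

theorem BM.mul {X : Type} [MeasurableSpace X] {f g : X → ℝ} (hf : BM f) (hg : BM g) :
    BM fun x => f x * g x := by
  obtain ⟨h1, B, hB⟩ := hf
  obtain ⟨h2, C, hC⟩ := hg
  refine ⟨h1.mul h2, B * C, fun x => ?_⟩
  rw [abs_mul]
  exact mul_le_mul (hB x) (hC x) (abs_nonneg _) ((abs_nonneg _).trans (hB x))

theorem BM.int {X : Type} [MeasurableSpace X] {μ : Measure X} [IsProbabilityMeasure μ] {f : X → ℝ}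
    (hf : BM f) : Integrable f μ := by
  obtain ⟨h1, B, hB⟩ := hf
  exact Integrable.of_bound h1.aestronglyMeasurable B (Filter.Eventually.of_forall fun x => by
    rw [Real.norm_eq_abs]
    exact hB x)

end LBASIS

open LBASIS in
theorem t_BASIS (h1 : S_GS) : S_BASIS := by
  intro k hk
  obtain ⟨e, he1, he2, he3, he4, he5⟩ := h1 ℝ I1 (gg k) (bm_gg k)
  refine ⟨e, he1, he2, he3, ?_, ?_⟩
  · intro l j a m hj ha hm
    have hmem := mem_span k l j a hj ha
    have key : ∀ h ∈ Submodule.span ℝ {h : ℝ → ℝ | ∃ m < k * 2 ^ l, h = gg k m},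
        BM h ∧ ∫ t, h t * e m t ∂I1 = 0 := by
      intro h hh
      induction hh using Submodule.span_induction with
      | mem h hh =>
        obtain ⟨i, hi, rfl⟩ := hh
        exact ⟨bm_gg k i, he4 i m (hi.trans_le hm)⟩
      | zero =>
        refine ⟨⟨measurable_const, 0, fun x => by simp⟩, ?_⟩
        simp
      | add f g _ _ hf hg =>
        obtain ⟨⟨hf1, B, hB⟩, hf2⟩ := hf
        obtain ⟨⟨hg1, C, hC⟩, hg2⟩ := hg
        refine ⟨⟨hf1.add hg1, B + C, fun x => ?_⟩, ?_⟩
        · exact (abs_add_le _ _).trans (add_le_add (hB x) (hC x))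
        · have e1 : ∀ t, (f + g) t * e m t = f t * e m t + g t * e m t := fun t => by
            rw [Pi.add_apply]
            ring
          simp only [e1]
          rw [integral_add (BM.int (BM.mul ⟨hf1, B, hB⟩ (he1 m)))
            (BM.int (BM.mul ⟨hg1, C, hC⟩ (he1 m))), hf2, hg2, add_zero]
      | smul c f _ hf =>
        obtain ⟨⟨hf1, B, hB⟩, hf2⟩ := hf
        refine ⟨⟨hf1.const_smul c, |c| * B, fun x => ?_⟩, ?_⟩
        · rw [Pi.smul_apply, smul_eq_mul, abs_mul]
          exact mul_le_mul_of_nonneg_left (hB x) (abs_nonneg _)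
        · have e1 : ∀ t, (c • f) t * e m t = c * (f t * e m t) := fun t => by
            rw [Pi.smul_apply, smul_eq_mul]
            ring
          simp only [e1]
          rw [integral_const_mul, hf2, mul_zero]
    exact (key _ hmem).2
  · intro l j hj
    have hmem := mem_span k l j 0 hj hk
    have key : ∀ h ∈ Submodule.span ℝ {h : ℝ → ℝ | ∃ m < k * 2 ^ l, h = gg k m},
        ∃ c : ℕ → ℝ, ∀ᵐ t ∂I1, h t = ∑ m ∈ range (k * 2 ^ l), c m * e m t := by
      intro h hh
      induction hh using Submodule.span_induction with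
      | mem h hh =>
        obtain ⟨i, hi, rfl⟩ := hh
        obtain ⟨c, hc⟩ := he5 i
        refine ⟨fun m => if m < i + 1 then c m else 0, hc.mono fun t ht => ?_⟩
        rw [ht]
        have hsub : range (i + 1) ⊆ range (k * 2 ^ l) := by
          intro x hx
          rw [mem_range] at hx ⊢
          omega
        rw [← sum_subset hsub]
        · refine sum_congr rfl fun m hm => ?_
          simp only [if_pos (mem_range.1 hm)]
        · intro m _ hm
          rw [mem_range] at hm
          simp only [if_neg hm, zero_mul]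
      | zero => exact ⟨fun _ => 0, Filter.Eventually.of_forall fun t => by simp⟩
      | add f g _ _ hf hg =>
        obtain ⟨c, hc⟩ := hf
        obtain ⟨c', hc'⟩ := hg
        refine ⟨fun m => c m + c' m, ?_⟩
        filter_upwards [hc, hc'] with t h2 h3
        rw [Pi.add_apply, h2, h3, ← sum_add_distrib]
        exact sum_congr rfl fun m _ => by ring
      | smul a f _ hf =>
        obtain ⟨c, hc⟩ := hf
        refine ⟨fun m => a * c m, ?_⟩
        filter_upwards [hc] with t h2
        rw [Pi.smul_apply, smul_eq_mul, h2, mul_sum]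
        exact sum_congr rfl fun m _ => by ring
    obtain ⟨c, hc⟩ := key _ hmem
    refine ⟨c, hc.mono fun t ht => ?_⟩
    rw [← ht]
    unfold hh
    simp only [pow_zero]

end Pool.Agent.N799.RI
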