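import Pool.Agent.N799.RI.Def

/-!
# Project RI: the functions for the lower bound (helper903)
-/

set_option autoImplicit false

namespace Pool.Agent.N799.RI

open MeasureTheory Finset

namespace Bump903

/-- the coordinate as a continuous linear map -/
noncomputable abbrev cp {d : ℕ} (i : Fin d) : (Fin d → ℝ) →L[ℝ] ℝ := ContinuousLinearMap.proj i

lemma mem_FF (d k : ℕ) (i : Fin d) (h : ℝ → ℝ) (hs : ContDiff ℝ k h)
    (hb : ∀ j ≤ k, ∀ t, |iteratedDeriv j h t| ≤ 1) : (fun x : Fin d → ℝ => h (x i)) ∈ FF d k := by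
  have hc : ContDiff ℝ k (fun x : Fin d → ℝ => h (x i)) := by
    exact hs.comp (contDiff_apply ℝ ℝ i)
  refine ⟨hc.continuous.continuousOn, hc.contDiffOn, ?_⟩
  intro j hj e x _
  have h1 : iteratedFDeriv ℝ j (fun x : Fin d → ℝ => h (x i)) x =
      (iteratedFDeriv ℝ j h (x i)).compContinuousLinearMap fun _ => cp i := by
    have := ContinuousLinearMap.iteratedFDeriv_comp_right (cp i) hs x (i := j) (by exact_mod_cast hj)
    exact this
  rw [h1]
  rw [ContinuousMultilinearMap.compContinuousLinearMap_apply, iteratedFDeriv_apply_eq_iteratedDeriv_mul_prod]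
  rw [smul_eq_mul, abs_mul]
  have h2 : |∏ l : Fin j, (cp i) (Pi.single (e l) (1 : ℝ))| ≤ 1 := by
    rw [Finset.abs_prod]
    apply Finset.prod_le_one
    · intro l _
      exact abs_nonneg _
    · intro l _
      simp only [ContinuousLinearMap.proj_apply]
      by_cases hl : i = e l
      · rw [← hl]; simp
      · rw [Pi.single_eq_of_ne hl]; simp
  calc _ ≤ 1 * 1 := mul_le_mul h2 (hb j hj _) (abs_nonneg _) zero_le_one
    _ = 1 := one_mul 1

lemma int_cube (d : ℕ) (i : Fin d) (h : ℝ → ℝ) (hc : Continuous h) (hz : ∀ t, t ∉ Set.Icc (0:ℝ) 1 → h t = 0) :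
    ∫ x in cube d, h (x i) = ∫ t, h t := by
  have h0 : cube d = Set.pi Set.univ (fun _ : Fin d => Set.Icc (0:ℝ) 1) := by
    ext x
    simp only [cube, Set.mem_ofPred_eq, Set.mem_pi, Set.mem_univ, true_imp_iff, Set.mem_Icc]
  have h1 : (volume : Measure (Fin d → ℝ)).restrict (cube d) =
      Measure.pi (fun _ : Fin d => (volume : Measure ℝ).restrict (Set.Icc (0:ℝ) 1)) := by
    rw [h0, volume_pi, Measure.restrict_pi_pi]
  rw [h1]
  have : IsProbabilityMeasure ((volume : Measure ℝ).restrict (Set.Icc (0:ℝ) 1)) := ⟨by simp⟩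
  have h2 := measurePreserving_eval (fun _ : Fin d => (volume : Measure ℝ).restrict (Set.Icc (0:ℝ) 1)) i
  have h3 : ∫ x : Fin d → ℝ, h (x i) ∂(Measure.pi (fun _ : Fin d => (volume : Measure ℝ).restrict (Set.Icc (0:ℝ) 1)))
      = ∫ t, h t ∂((volume : Measure ℝ).restrict (Set.Icc (0:ℝ) 1)) := by
    conv_rhs => rw [← h2.map_eq]
    rw [integral_map (measurable_pi_apply i).aemeasurable hc.aestronglyMeasurable]
  rw [h3]
  exact setIntegral_eq_integral_of_forall_compl_eq_zero hz

theorem exists_g (k : ℕ) : ∃ g : ℝ → ℝ, ContDiff ℝ k g ∧ (∀ j ≤ k, ∀ t, |iteratedDeriv j g t| ≤ 1) ∧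
    (∀ t, t ∉ Set.Ioo (0:ℝ) (1/2) → g t = 0) ∧ 0 < ∫ t, g t := by
  let b : ContDiffBump (1/4 : ℝ) := ⟨1/8, 1/4, by norm_num, by norm_num⟩
  have hbs : ContDiff ℝ k (b : ℝ → ℝ) := b.contDiff
  have hbc : HasCompactSupport (b : ℝ → ℝ) := b.hasCompactSupport
  have hB : ∀ j : ℕ, j ≤ k → ∃ C : ℝ, ∀ t, |iteratedDeriv j (b : ℝ → ℝ) t| ≤ C := by
    intro j hj
    have hcont : Continuous (iteratedFDeriv ℝ j (b : ℝ → ℝ)) :=
      hbs.continuous_iteratedFDeriv (by exact_mod_cast hj)
    have hcs : HasCompactSupport (iteratedFDeriv ℝ j (b : ℝ → ℝ)) := hbc.iteratedFDeriv j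
    obtain ⟨C, hC⟩ := hcs.exists_bound_of_continuous hcont
    refine ⟨C, fun t => ?_⟩
    have := hC t
    rw [norm_iteratedFDeriv_eq_norm_iteratedDeriv] at this
    exact this
  choose! C hC using hB
  let D : ℝ := 1 + ∑ j ∈ range (k+1), |C j|
  have hD1 : 1 ≤ D := by
    have : 0 ≤ ∑ j ∈ range (k+1), |C j| := Finset.sum_nonneg fun _ _ => abs_nonneg _
    simp only [D]; linarith
  have hDC : ∀ j ≤ k, C j ≤ D := by
    intro j hj
    have h1 : |C j| ≤ ∑ j ∈ range (k+1), |C j| :=
      Finset.single_le_sum (f := fun j => |C j|) (fun _ _ => abs_nonneg _) (by simp; omega)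
    have := le_abs_self (C j)
    simp only [D]; linarith
  have hD0 : 0 < D := by linarith
  refine ⟨fun t => D⁻¹ * b t, ?_, ?_, ?_, ?_⟩
  · exact contDiff_const.mul hbs
  · intro j hj t
    have h1 : iteratedDeriv j (fun t => D⁻¹ * b t) t = D⁻¹ * iteratedDeriv j (b : ℝ → ℝ) t := by
      rw [iteratedDeriv_const_mul_field]
    rw [h1, abs_mul, abs_inv, abs_of_pos hD0, inv_mul_le_iff₀ hD0, mul_one]
    exact (hC j hj t).trans (hDC j hj)
  · intro t ht
    have : b t = 0 := by
      apply b.zero_of_le_dist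
      rw [Real.dist_eq]
      by_contra hlt
      push Not at hlt
      apply ht
      have := abs_lt.1 hlt
      simp only [b] at this
      constructor <;> linarith [this.1, this.2]
    simp [this]
  · rw [integral_const_mul]
    have := b.integral_pos (μ := volume)
    positivity

end Bump903

open Bump903 in
theorem t_BUMP : S_BUMP := by
  intro k
  obtain ⟨g, hs, hb, hz, hpos⟩ := exists_g k
  refine ⟨∫ t, g t, hpos, ?_⟩
  intro d hd
  let i : Fin d := ⟨0, hd⟩
  have hs2 : ContDiff ℝ k (fun t => g (t - 1/2)) := hs.comp (contDiff_id.sub contDiff_const)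
  have hb2 : ∀ j ≤ k, ∀ t, |iteratedDeriv j (fun t => g (t - 1/2)) t| ≤ 1 := by
    intro j hj t
    rw [iteratedDeriv_comp_sub_const]
    exact hb j hj _
  have hn : ∀ h : ℝ → ℝ, (∀ j ≤ k, ∀ t, |iteratedDeriv j h t| ≤ 1) →
      ∀ j ≤ k, ∀ t, |iteratedDeriv j (fun t => - h t) t| ≤ 1 := by
    intro h hh j hj t
    have : iteratedDeriv j (fun t => - h t) t = - iteratedDeriv j h t := by
      have := iteratedDeriv_neg j h t
      exact this
    rw [this, abs_neg]
    exact hh j hj t
  refine ⟨fun x => g (x i), fun x => g (x i - 1/2), ?_, ?_, ?_, ?_, ?_, ?_, ?_, ?_⟩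
  · exact mem_FF d k i g hs hb
  · exact mem_FF d k i (fun t => g (t - 1/2)) hs2 hb2
  · exact mem_FF d k i (fun t => - g t) hs.neg (hn g hb)
  · exact mem_FF d k i (fun t => - g (t - 1/2)) hs2.neg (hn _ hb2)
  · refine mem_FF d k i (fun _ => (0:ℝ)) contDiff_const ?_
    intro j _ t
    rw [iteratedDeriv_const]
    split_ifs <;> simp
  · intro x
    by_cases h : x i ∈ Set.Ioo (0:ℝ) (1/2)
    · right
      apply hz
      intro h2
      have := h.2
      have := h2.1
      linarith
    · left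
      exact hz _ h
  · apply int_cube d i g hs.continuous
    intro t ht
    apply hz
    intro h2
    exact ht ⟨h2.1.le, by linarith [h2.2]⟩
  · have := int_cube d i (fun t => g (t - 1/2)) hs2.continuous ?_
    · rw [this]
      exact integral_sub_right_eq_self g (1/2)
    · intro t ht
      apply hz
      intro h2
      exact ht ⟨by linarith [h2.1], by linarith [h2.2]⟩

end Pool.Agent.N799.RI
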