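import Pool.Agent.N799.RI.Def

/-!
# Project RI, leaf CL (helper335): `f (clamp x)` is bounded by `1` and measurable
-/

set_option autoImplicit false

namespace Pool.Agent.N799.RI

open MeasureTheory Finset

namespace CL

lemma clamp_cont {d : ℕ} : Continuous (clamp : (Fin d → ℝ) → Fin d → ℝ) := by
  unfold clamp
  exact continuous_pi fun i => continuous_const.max (continuous_const.min (continuous_apply i))

lemma clamp_mem {d : ℕ} (x : Fin d → ℝ) : clamp x ∈ cube d := by
  intro i
  constructor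
  · exact le_max_left _ _
  · exact max_le zero_le_one (min_le_left _ _)

lemma clamp_eq {d : ℕ} {x : Fin d → ℝ} (hx : x ∈ cube d) : clamp x = x := by
  funext i
  obtain ⟨h0, h1⟩ := hx i
  unfold clamp
  rw [min_eq_right h1, max_eq_right h0]

end CL

open CL Filter Topology in
theorem t_CL : S_CL := by
  intro d k f _ hf
  obtain ⟨hc, -, hb⟩ := hf
  have hg : Continuous fun x => f (clamp x) := hc.comp_continuous clamp_cont clamp_mem
  refine ⟨hg.measurable, ?_⟩
  have hopen : ∀ x ∈ openCube d, |f x| ≤ 1 := by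
    intro x hx
    have h1 := hb 0 (Nat.zero_le _) (fun l => l.elim0) x hx
    rwa [iteratedFDeriv_zero_apply] at h1
  intro x
  obtain ⟨φ, hφ⟩ : ∃ φ : ℝ → Fin d → ℝ, φ = fun e i => (1 - e) * clamp x i + e / 2 := ⟨_, rfl⟩
  have hφc : Continuous φ := by
    rw [hφ]
    exact continuous_pi fun i => by fun_prop
  have h0 : φ 0 = clamp x := by
    rw [hφ]
    funext i
    simp
  have h1 : Tendsto (fun e => |f (clamp (φ e))|) (𝓝[>] 0) (𝓝 |f (clamp (φ 0))|) :=
    (((hg.comp hφc).abs).tendsto 0).mono_left nhdsWithin_le_nhds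
  have h2 : ∀ᶠ e in 𝓝[>] (0 : ℝ), |f (clamp (φ e))| ≤ 1 := by
    have h3 : Set.Ioo (0 : ℝ) 1 ∈ 𝓝[>] (0 : ℝ) := Ioo_mem_nhdsGT one_pos
    filter_upwards [h3] with e he
    have h4 : φ e ∈ openCube d := by
      intro i
      obtain ⟨a0, a1⟩ := clamp_mem x i
      rw [hφ]
      constructor
      · have : 0 ≤ (1 - e) * clamp x i := mul_nonneg (by linarith [he.2]) a0
        simp only
        linarith [he.1]
      · have : (1 - e) * clamp x i ≤ (1 - e) * 1 := mul_le_mul_of_nonneg_left a1 (by linarith [he.2])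
        simp only
        linarith [he.1]
    have h5 : φ e ∈ cube d := fun i => ⟨(h4 i).1.le, (h4 i).2.le⟩
    rw [clamp_eq h5]
    exact hopen _ h4
  have h6 := le_of_tendsto h1 h2
  rwa [h0, clamp_eq (clamp_mem x)] at h6

end Pool.Agent.N799.RI
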