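import Pool.Agent.N799.RI.Def

/-!
Project RI (helper799), COMPL: piecewise constant approximation (helper712)
-/

set_option autoImplicit false

namespace Pool.Agent.N799.RI

open MeasureTheory Finset

namespace COMPLx

/-- the center of a dyadic interval -/
noncomputable def cen (H j : ℕ) : ℝ := ((j : ℝ) + 1 / 2) / 2 ^ H

lemma cen_mem {H j : ℕ} (hj : j < 2 ^ H) : 0 < cen H j ∧ cen H j < 1 := by
  have h2 : (0 : ℝ) < 2 ^ H := by positivity
  unfold cen
  refine ⟨by positivity, ?_⟩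
  rw [div_lt_one h2]
  have h3 : ((j : ℝ) + 1) ≤ 2 ^ H := by exact_mod_cast hj
  linarith

lemma mem_dy {H j : ℕ} {t : ℝ} : t ∈ dy H j ↔ (j : ℝ) ≤ t * 2 ^ H ∧ t * 2 ^ H < j + 1 := by
  have h2 : (0 : ℝ) < 2 ^ H := by positivity
  unfold dy
  rw [Set.mem_Ico, div_le_iff₀ h2, lt_div_iff₀ h2]

lemma exi (H : ℕ) {t : ℝ} (h0 : 0 < t) (h1 : t < 1) : ∃ j : Fin (2 ^ H), t ∈ dy H j := by
  have h2 : (0 : ℝ) < 2 ^ H := by positivity
  have h3 : 0 ≤ t * 2 ^ H := by positivity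
  have h4 : ⌊t * 2 ^ H⌋₊ < 2 ^ H := by
    rw [Nat.floor_lt h3]
    push_cast
    nlinarith
  exact ⟨⟨⌊t * 2 ^ H⌋₊, h4⟩, mem_dy.2 ⟨Nat.floor_le h3, Nat.lt_floor_add_one _⟩⟩

lemma dist_cen {H j : ℕ} {t : ℝ} (h : t ∈ dy H j) : |t - cen H j| ≤ 1 / 2 ^ H := by
  have h2 : (0 : ℝ) < 2 ^ H := by positivity
  obtain ⟨h3, h4⟩ := mem_dy.1 h
  unfold cen
  have e : t - ((j : ℝ) + 1 / 2) / 2 ^ H = (t * 2 ^ H - (j + 1 / 2)) / 2 ^ H := by
    field_simp
  rw [e, abs_div, abs_of_pos h2]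
  apply div_le_div_of_nonneg_right _ h2.le
  rw [abs_le]
  constructor <;> linarith

lemma disj {H j j' : ℕ} {t : ℝ} (h : t ∈ dy H j) (h' : t ∈ dy H j') : j = j' := by
  obtain ⟨h1, h2⟩ := mem_dy.1 h
  obtain ⟨h3, h4⟩ := mem_dy.1 h'
  have h5 : (j : ℝ) < j' + 1 := by linarith
  have h6 : (j' : ℝ) < j + 1 := by linarith
  have h7 : j < j' + 1 := by exact_mod_cast h5
  have h8 : j' < j + 1 := by exact_mod_cast h6
  omega

open Classical in
/-- the piecewise constant approximation -/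
noncomputable def gH {d : ℕ} (H : ℕ) (g : (Fin d → ℝ) → ℝ) (x : Fin d → ℝ) : ℝ :=
  ∑ J : Fin d → Fin (2 ^ H), g (fun i => cen H (J i)) *
    ∏ i, (dy H (J i)).indicator (fun _ => (1 : ℝ)) (x i)

lemma gH_eq {d H : ℕ} (g : (Fin d → ℝ) → ℝ) {x : Fin d → ℝ} {J : Fin d → Fin (2 ^ H)}
    (hJ : ∀ i, x i ∈ dy H (J i)) : gH H g x = g (fun i => cen H (J i)) := by
  classical
  unfold gH
  rw [Finset.sum_eq_single J]
  · have : ∏ i, (dy H (J i)).indicator (fun _ => (1 : ℝ)) (x i) = 1 :=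
      Finset.prod_eq_one fun i _ => by rw [Set.indicator_of_mem (hJ i)]
    rw [this, mul_one]
  · intro J' _ hne
    obtain ⟨i, hi⟩ : ∃ i, J' i ≠ J i := by
      by_contra hcon
      push Not at hcon
      exact hne (funext hcon)
    have h1 : x i ∉ dy H (J' i) := fun h => hi (Fin.ext (disj h (hJ i)))
    have h2 : ∏ i, (dy H (J' i)).indicator (fun _ => (1 : ℝ)) (x i) = 0 :=
      Finset.prod_eq_zero (mem_univ i) (by rw [Set.indicator_of_notMem h1])
    rw [h2, mul_zero]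
  · intro h
    exact absurd (mem_univ _) h

lemma gH_close {d : ℕ} {g : (Fin d → ℝ) → ℝ} (hg : Lip1 d g) (H : ℕ) {x : Fin d → ℝ}
    (hx : x ∈ openCube d) : |g x - gH H g x| ≤ d * (1 / 2 ^ H) := by
  choose J hJ using fun i => exi H (hx i).1 (hx i).2
  rw [gH_eq g hJ]
  have h1 : (fun i => cen H (J i)) ∈ openCube d := fun i => cen_mem (J i).isLt
  refine (hg x hx _ h1).trans ?_
  have h2 : ∑ i, |x i - cen H (J i)| ≤ ∑ _i : Fin d, (1 / 2 ^ H : ℝ) :=
    Finset.sum_le_sum fun i _ => dist_cen (hJ i)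
  rw [Finset.sum_const, Finset.card_univ, Fintype.card_fin, nsmul_eq_mul] at h2
  exact h2

lemma ae_all {d : ℕ} {p : ℝ → Prop} (h : ∀ᵐ t ∂I1, p t) : ∀ᵐ x ∂(Qd d), ∀ i, p (x i) := by
  rw [ae_all_iff]
  intro i
  exact (measurePreserving_eval (fun _ : Fin d => I1) i).quasiMeasurePreserving.ae h

end COMPLx

open COMPLx

theorem t_COMPL (h1 : S_EXP) (h2 : S_ORTH) : S_COMPL := by
  classical
  intro k d e hk he g hg hL ε hε
  obtain ⟨H₀, hH₀⟩ := exists_nat_gt ((d : ℝ) ^ 2 / ε)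
  refine ⟨H₀, fun H hH => ?_⟩
  have hp2 : (0 : ℝ) < 2 ^ H := by positivity
  -- the coefficients
  choose c hc using fun j : Fin (2 ^ H) => he.span H j j.isLt
  obtain ⟨A, hA⟩ : ∃ A : (Fin d → ℕ) → ℝ, A = fun m => ∑ J : Fin d → Fin (2 ^ H),
    g (fun i => cen H (J i)) * ∏ i, c (J i) (m i) := ⟨_, rfl⟩
  have hae : ∀ᵐ x ∂(Qd d), gH H g x = ∑ m ∈ Box d (k * 2 ^ H), A m * EE e m x := by
    have h3 : ∀ᵐ t ∂I1, ∀ j : Fin (2 ^ H), (dy H j).indicator (fun _ => (1 : ℝ)) t =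
        ∑ m ∈ range (k * 2 ^ H), c j m * e m t := by
      rw [ae_all_iff]
      exact hc
    filter_upwards [COMPLx.ae_all (d := d) h3] with x hx
    unfold gH
    have h4 : ∀ J : Fin d → Fin (2 ^ H), g (fun i => cen H (J i)) *
        ∏ i, (dy H (J i)).indicator (fun _ => (1 : ℝ)) (x i) =
        ∑ m ∈ Box d (k * 2 ^ H), g (fun i => cen H (J i)) * (∏ i, c (J i) (m i)) * EE e m x := by
      intro J
      have h5 : ∏ i, (dy H (J i)).indicator (fun _ => (1 : ℝ)) (x i) =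
          ∏ i, ∑ m ∈ range (k * 2 ^ H), c (J i) m * e m (x i) :=
        Finset.prod_congr rfl fun i _ => hx i (J i)
      rw [h5, Finset.prod_univ_sum, Finset.mul_sum]
      unfold Box EE
      refine Finset.sum_congr rfl fun m _ => ?_
      rw [Finset.prod_mul_distrib]
      ring
    rw [Finset.sum_congr rfl fun J _ => h4 J, Finset.sum_comm]
    refine Finset.sum_congr rfl fun m _ => ?_
    rw [hA, Finset.sum_mul]
  have hgood : ∀ x, ∑ m ∈ Box d (k * 2 ^ H), A m * EE e m x =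
      ∑ m ∈ (Box d (k * 2 ^ H)).filter (Good e), A m * EE e m x := by
    intro x
    rw [Finset.sum_filter]
    refine Finset.sum_congr rfl fun m _ => ?_
    split_ifs with h
    · rfl
    · unfold Good at h
      push Not at h
      obtain ⟨i, hi⟩ := h
      have h3 := (he.norm (m i)).resolve_left hi
      have h4 : EE e m x = 0 := by
        unfold EE
        exact Finset.prod_eq_zero (Finset.mem_univ i) (h3 _)
      rw [h4, mul_zero]
  have hON := h2 k d e he ((Box d (k * 2 ^ H)).filter (Good e))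
    (fun m hm => (Finset.mem_filter.1 hm).2)
  have h3 := h1 (Fin d → ℝ) (Qd d) (Fin d → ℕ) (EE e) ((Box d (k * 2 ^ H)).filter (Good e)) hON g
    hg A
  have h4 : Ds (Qd d) (EE e) ((Box d (k * 2 ^ H)).filter (Good e)) g ≤
      ∫ x, (g x - ∑ m ∈ (Box d (k * 2 ^ H)).filter (Good e), A m * EE e m x) ^ 2 ∂(Qd d) := by
    rw [h3]
    have : 0 ≤ ∑ m ∈ (Box d (k * 2 ^ H)).filter (Good e),
        (A m - ∫ x, g x * EE e m x ∂(Qd d)) ^ 2 := Finset.sum_nonneg fun m _ => sq_nonneg _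
    linarith
  refine h4.trans ?_
  have hopen : ∀ᵐ x ∂(Qd d), x ∈ openCube d := by
    have h5 : ∀ᵐ t ∂I1, t ∈ Set.Ioo (0 : ℝ) 1 := by
      unfold I1
      exact ae_restrict_mem measurableSet_Ioo
    filter_upwards [COMPLx.ae_all (d := d) h5] with x hx i
    exact hx i
  have h5 : ∫ x, (g x - ∑ m ∈ (Box d (k * 2 ^ H)).filter (Good e), A m * EE e m x) ^ 2 ∂(Qd d) ≤
      ∫ _x, ((d : ℝ) * (1 / 2 ^ H)) ^ 2 ∂(Qd d) := by
    refine integral_mono_of_nonneg (Filter.Eventually.of_forall fun x => sq_nonneg _)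
      (integrable_const _) ?_
    filter_upwards [hae, hopen] with x hx1 hx2
    rw [← hgood x, ← hx1]
    have h6 := gH_close hL H hx2
    have h7 := abs_le.1 h6
    exact sq_le_sq' h7.1 h7.2
  refine h5.trans ?_
  rw [integral_const]
  simp only [probReal_univ, one_smul]
  have h6 : (H₀ : ℝ) ≤ 2 ^ H := by
    have h7 : H₀ ≤ 2 ^ H := hH.trans (Nat.lt_two_pow_self).le
    exact_mod_cast h7
  have h7 : (d : ℝ) ^ 2 < ε * 2 ^ H := by
    have := (div_lt_iff₀ hε).1 hH₀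
    nlinarith
  have h8 : (1 : ℝ) ≤ 2 ^ H := one_le_pow₀ (by norm_num)
  have h9 : ((d : ℝ) * (1 / 2 ^ H)) ^ 2 = (d : ℝ) ^ 2 / (2 ^ H * 2 ^ H) := by
    field_simp
  rw [h9, div_le_iff₀ (by positivity)]
  nlinarith [mul_le_mul_of_nonneg_left h8 (mul_nonneg hε.le hp2.le)]

end Pool.Agent.N799.RI
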