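import Pool.Agent.N799.RI.Def

/-!
Leaf RI/COUNT: counting multi-indices.  Authors: helper799 (statement), helper106 (proof).
-/

set_option autoImplicit false

namespace Pool.Agent.N799.RI

open Finset

namespace CountAux

lemma two_mul_succ_le (s : ℕ) : 2 * s + 1 ≤ ∑ j ∈ range (s + 1), 2 ^ j := by
  induction s with
  | zero => simp
  | succ s ih =>
    rw [sum_range_succ]
    have : 2 ^ 1 ≤ 2 ^ (s + 1) := Nat.pow_le_pow_right (by norm_num) (by omega)
    omega

lemma vv_ge {k L m s : ℕ} (hk : 1 ≤ k) (h : k * 2 ^ (L + s) ≤ m) : 2 * s + 1 ≤ vv k L m := by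
  refine (two_mul_succ_le s).trans ?_
  unfold vv
  have e : ∑ j ∈ range (s + 1), 2 ^ j =
      ∑ l ∈ (range (s + 1)).map (addLeftEmbedding L), 2 ^ (l - L) := by
    rw [sum_map]
    simp
  rw [e]
  refine sum_le_sum_of_subset ?_
  intro l hl
  simp only [mem_map, mem_range, addLeftEmbedding_apply] at hl
  obtain ⟨j, hj, rfl⟩ := hl
  have h2 : k * 2 ^ (L + j) ≤ m :=
    le_trans (Nat.mul_le_mul_left k (Nat.pow_le_pow_right (by norm_num) (by omega))) h
  have h3 : L + j < 2 ^ (L + j) := Nat.lt_two_pow_self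
  have h4 : 2 ^ (L + j) ≤ k * 2 ^ (L + j) := Nat.le_mul_of_pos_left _ hk
  simp only [mem_filter, mem_range]
  exact ⟨by omega, by omega, h2⟩

lemma one_dim {k L : ℕ} (hk : 1 ≤ k) (s : ℕ) :
    ∑ m ∈ range (k * 2 ^ (L + s)), (1 / 2 : ℝ) ^ vv k L m ≤ k * 2 ^ L * (2 - (1 / 2) ^ s) := by
  induction s with
  | zero =>
    calc _ ≤ ∑ m ∈ range (k * 2 ^ (L + 0)), (1 : ℝ) :=
          sum_le_sum fun m _ => pow_le_one₀ (by norm_num) (by norm_num)
      _ = _ := by
        simp only [add_zero, sum_const, card_range, nsmul_eq_mul, mul_one, pow_zero]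
        push_cast
        ring
  | succ s ih =>
    have e : k * 2 ^ (L + (s + 1)) = k * 2 ^ (L + s) + k * 2 ^ (L + s) := by ring
    rw [e, sum_range_add]
    have h1 : ∑ x ∈ range (k * 2 ^ (L + s)), (1 / 2 : ℝ) ^ vv k L (k * 2 ^ (L + s) + x) ≤
        ∑ x ∈ range (k * 2 ^ (L + s)), (1 / 2 : ℝ) ^ (2 * s + 1) := by
      refine sum_le_sum fun x _ => ?_
      exact pow_le_pow_of_le_one (by norm_num) (by norm_num) (vv_ge hk (Nat.le_add_right _ _))
    have h2 : ∑ x ∈ range (k * 2 ^ (L + s)), (1 / 2 : ℝ) ^ (2 * s + 1) =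
        k * 2 ^ L * (1 / 2) ^ (s + 1) := by
      rw [sum_const, card_range, nsmul_eq_mul]
      push_cast
      have h3 : (2 : ℝ) ^ s * (1 / 2) ^ s = 1 := by rw [← mul_pow]; norm_num
      have h4 : (1 / 2 : ℝ) ^ (2 * s + 1) = (1 / 2) ^ s * (1 / 2) ^ (s + 1) := by
        rw [← pow_add]; congr 1; omega
      rw [h4, pow_add]
      calc (k : ℝ) * (2 ^ L * 2 ^ s) * ((1 / 2) ^ s * (1 / 2) ^ (s + 1)) =
          k * 2 ^ L * (2 ^ s * (1 / 2) ^ s) * (1 / 2) ^ (s + 1) := by ring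
        _ = _ := by rw [h3, mul_one]
    calc _ ≤ k * 2 ^ L * (2 - (1 / 2 : ℝ) ^ s) + k * 2 ^ L * (1 / 2) ^ (s + 1) :=
          add_le_add ih (h1.trans h2.le)
      _ = _ := by rw [pow_succ]; ring

end CountAux

theorem t_COUNT : S_COUNT := by
  intro k d L hk hd
  have key : (((Box d (k * 2 ^ (L + d))).filter fun m => ∑ i, vv k L (m i) ≤ d).card : ℝ) ≤
      (6 * k * 2 ^ L) ^ d := by
    calc (((Box d (k * 2 ^ (L + d))).filter fun m => ∑ i, vv k L (m i) ≤ d).card : ℝ)
        = ∑ m ∈ (Box d (k * 2 ^ (L + d))).filter fun m => ∑ i, vv k L (m i) ≤ d, (1 : ℝ) := by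
          simp
      _ ≤ ∑ m ∈ (Box d (k * 2 ^ (L + d))).filter fun m => ∑ i, vv k L (m i) ≤ d,
            2 ^ d * ∏ i, (1 / 2 : ℝ) ^ vv k L (m i) := by
          refine sum_le_sum fun m hm => ?_
          rw [prod_pow_eq_pow_sum]
          have h1 := (mem_filter.1 hm).2
          have h2 : (1 / 2 : ℝ) ^ d ≤ (1 / 2) ^ ∑ i, vv k L (m i) :=
            pow_le_pow_of_le_one (by norm_num) (by norm_num) h1
          have h3 : (2 : ℝ) ^ d * (1 / 2) ^ d = 1 := by rw [← mul_pow]; norm_num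
          calc (1 : ℝ) = 2 ^ d * (1 / 2) ^ d := h3.symm
            _ ≤ _ := mul_le_mul_of_nonneg_left h2 (by positivity)
      _ ≤ ∑ m ∈ Box d (k * 2 ^ (L + d)), 2 ^ d * ∏ i, (1 / 2 : ℝ) ^ vv k L (m i) :=
          sum_le_sum_of_subset_of_nonneg (filter_subset _ _) fun m _ _ => by positivity
      _ = 2 ^ d * (∑ m ∈ range (k * 2 ^ (L + d)), (1 / 2 : ℝ) ^ vv k L m) ^ d := by
          rw [← mul_sum]
          unfold Box
          rw [← prod_univ_sum (t := fun _ : Fin d => range (k * 2 ^ (L + d)))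
            (f := fun _ m => (1 / 2 : ℝ) ^ vv k L m)]
          rw [prod_const, card_univ, Fintype.card_fin]
      _ ≤ 2 ^ d * (k * 2 ^ L * 2) ^ d := by
          refine mul_le_mul_of_nonneg_left (pow_le_pow_left₀ (by positivity) ?_ d) (by positivity)
          refine (CountAux.one_dim hk d).trans ?_
          refine mul_le_mul_of_nonneg_left ?_ (by positivity)
          have : (0 : ℝ) ≤ (1 / 2) ^ d := by positivity
          linarith
      _ = (4 * (k * 2 ^ L)) ^ d := by rw [← mul_pow]; ring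
      _ ≤ (6 * k * 2 ^ L) ^ d := by
          refine pow_le_pow_left₀ (by positivity) ?_ d
          rw [mul_assoc 6]
          refine mul_le_mul_of_nonneg_right (by norm_num) (by positivity)
  exact_mod_cast key

end Pool.Agent.N799.RI
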