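import Pool.Agent.N799.RI.Def

/-!
# Randomized integration of smooth functions: the distance to the span of level `L`
Project RI (helper799), part DIST (helper694).
-/

set_option autoImplicit false

namespace Pool.Agent.N799.RI

open MeasureTheory Finset

/-- the penalty is large far away -/
private theorem dist_vv_large {k L d p : ℕ} (hk : 1 ≤ k) (hp : k * 2 ^ (L + d) ≤ p) : 2 ^ d ≤ vv k L p := by
  unfold vv
  have h1 : L + d < 2 ^ (L + d) := Nat.lt_two_pow_self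
  have h2 : 2 ^ (L + d) ≤ k * 2 ^ (L + d) := Nat.le_mul_of_pos_left _ hk
  have hmem : L + d ∈ (range (p + 1)).filter (fun l => L ≤ l ∧ k * 2 ^ l ≤ p) :=
    mem_filter.2 ⟨mem_range.2 (by omega), by omega, hp⟩
  have h3 := single_le_sum (f := fun l => 2 ^ (l - L)) (fun _ _ => Nat.zero_le _) hmem
  simpa using h3

/-- the penalty as a sum over the levels below `H` -/
private theorem dist_vv_le {k L H p : ℕ} (hp : p < k * 2 ^ H) :
    vv k L p ≤ ∑ l ∈ Ico L H, if k * 2 ^ l ≤ p then 2 ^ (l - L) else 0 := by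
  unfold vv
  rw [← sum_filter]
  apply sum_le_sum_of_subset
  intro l hl
  rw [mem_filter, mem_range] at hl
  obtain ⟨_, hl1, hl2⟩ := hl
  rw [mem_filter, mem_Ico]
  refine ⟨⟨hl1, ?_⟩, hl2⟩
  by_contra hcon
  push Not at hcon
  have : k * 2 ^ H ≤ k * 2 ^ l := Nat.mul_le_mul_left _ (Nat.pow_le_pow_right (by norm_num) hcon)
  omega

/-- the geometric series -/
private theorem dist_geom (k L H : ℕ) (hk : 1 ≤ k) :
    ∑ l ∈ Ico L H, (2 : ℝ) ^ (l - L) * (1 / 4 ^ l) ^ k ≤ 2 * (1 / 4 ^ L) ^ k := by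
  have hterm : ∀ l ∈ Ico L H, (2 : ℝ) ^ (l - L) * (1 / 4 ^ l) ^ k ≤ (1 / 4 ^ L) ^ k * (1 / 2) ^ (l - L) := by
    intro l hl
    obtain ⟨s, rfl⟩ := Nat.exists_eq_add_of_le (mem_Ico.1 hl).1
    rw [Nat.add_sub_cancel_left]
    have h0 : (1 : ℝ) / 4 ^ (L + s) = (1 / 4 ^ L) * (1 / 4) ^ s := by
      rw [pow_add, one_div_pow, one_div_mul_one_div]
    have h1 : ((1 : ℝ) / 4 ^ (L + s)) ^ k = (1 / 4 ^ L) ^ k * ((1 / 4) ^ s) ^ k := by
      rw [h0, mul_pow]
    have h2 : (((1 : ℝ) / 4) ^ s) ^ k ≤ (1 / 4) ^ s := by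
      have h3 : ((1 : ℝ) / 4) ^ s ≤ 1 := pow_le_one₀ (by norm_num) (by norm_num)
      calc (((1 : ℝ) / 4) ^ s) ^ k ≤ (((1 : ℝ) / 4) ^ s) ^ 1 :=
            pow_le_pow_of_le_one (by positivity) h3 hk
        _ = _ := pow_one _
    have h4 : (2 : ℝ) ^ s * (1 / 4) ^ s = (1 / 2) ^ s := by
      rw [← mul_pow]; norm_num
    rw [h1]
    calc (2 : ℝ) ^ s * ((1 / 4 ^ L) ^ k * ((1 / 4) ^ s) ^ k)
        = (1 / 4 ^ L) ^ k * (2 ^ s * ((1 / 4) ^ s) ^ k) := by ring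
      _ ≤ (1 / 4 ^ L) ^ k * (2 ^ s * (1 / 4) ^ s) := by
          apply mul_le_mul_of_nonneg_left _ (by positivity)
          exact mul_le_mul_of_nonneg_left h2 (by positivity)
      _ = _ := by rw [h4]
  refine (sum_le_sum hterm).trans ?_
  rw [← mul_sum, mul_comm (2 : ℝ)]
  apply mul_le_mul_of_nonneg_left _ (by positivity)
  rw [sum_Ico_eq_sum_range]
  have h5 : ∀ i ∈ range (H - L), ((1 : ℝ) / 2) ^ (L + i - L) = (1 / 2) ^ i := by
    intro i _
    rw [Nat.add_sub_cancel_left]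
  rw [sum_congr rfl h5, geom_sum_eq (by norm_num)]
  have h6 : (0 : ℝ) ≤ (1 / 2) ^ (H - L) := by positivity
  have h7 : (((1 : ℝ) / 2) ^ (H - L) - 1) / (1 / 2 - 1) = 2 * (1 - (1 / 2) ^ (H - L)) := by
    norm_num
    ring
  rw [h7]
  linarith

theorem t_DIST (h1 : S_TAIL) (h2 : S_COMPL) : S_DIST := by
  classical
  intro k d e hk hd he g hg hT hLip L
  set c : (Fin d → ℕ) → ℝ := fun m => ∫ x, g x * EE e m x ∂(Qd d) with hc
  refine le_of_forall_pos_le_add fun ε hε => ?_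
  obtain ⟨H₀, hH₀⟩ := h2 k d e hk he g hg hLip ε hε
  obtain ⟨H, hH, hH1, hH2⟩ : ∃ H, H = max H₀ (L + d) ∧ H₀ ≤ H ∧ L + d ≤ H :=
    ⟨_, rfl, le_max_left _ _, le_max_right _ _⟩
  have h3 := hH₀ H hH1
  obtain ⟨B, hB⟩ : ∃ B : Finset (Fin d → ℕ), B = (Box d (k * 2 ^ H)).filter (Good e) := ⟨_, rfl⟩
  have h3' : Ds (Qd d) (EE e) B g ≤ ε := by
    rw [hB]
    convert h3
  have hBmem : ∀ m, m ∈ B ↔ (∀ i, m i < k * 2 ^ H) ∧ Good e m := by
    intro m
    rw [hB, mem_filter, Box, Fintype.mem_piFinset]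
    simp only [mem_range]
  have hJmem : ∀ m, m ∈ JJ k d e L ↔ (∀ i, m i < k * 2 ^ (L + d)) ∧ (∑ i, vv k L (m i) ≤ d) ∧ Good e m := by
    intro m
    unfold JJ
    rw [mem_filter, Box, Fintype.mem_piFinset]
    simp only [mem_range]
  have hpow : k * 2 ^ (L + d) ≤ k * 2 ^ H :=
    Nat.mul_le_mul_left _ (Nat.pow_le_pow_right (by norm_num) hH2)
  have hJB : JJ k d e L ⊆ B := by
    intro m hm
    rw [hJmem] at hm
    rw [hBmem]
    exact ⟨fun i => (hm.1 i).trans_le hpow, hm.2.2⟩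
  -- the penalty outside `JJ`
  have hout : ∀ m ∈ B \ JJ k d e L, d ≤ ∑ i, vv k L (m i) := by
    intro m hm
    obtain ⟨hmB, hmJ⟩ := mem_sdiff.1 hm
    rw [hBmem] at hmB
    by_contra hcon
    push Not at hcon
    apply hmJ
    rw [hJmem]
    refine ⟨fun i => ?_, hcon.le, hmB.2⟩
    by_contra hcon2
    push Not at hcon2
    have h4 := dist_vv_large hk hcon2
    have h5 : vv k L (m i) ≤ ∑ i, vv k L (m i) :=
      single_le_sum (f := fun i => vv k L (m i)) (fun _ _ => Nat.zero_le _) (mem_univ i)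
    have h6 : d < 2 ^ d := Nat.lt_two_pow_self
    omega
  -- one variable
  have hone : ∀ i : Fin d, ∑ m ∈ B, (vv k L (m i) : ℝ) * c m ^ 2 ≤ 2 * (1 / 4 ^ L) ^ k := by
    intro i
    calc ∑ m ∈ B, (vv k L (m i) : ℝ) * c m ^ 2
        ≤ ∑ m ∈ B, ∑ l ∈ Ico L H, (if k * 2 ^ l ≤ m i then (2 : ℝ) ^ (l - L) * c m ^ 2 else 0) := by
          apply sum_le_sum
          intro m hm
          have h4 := dist_vv_le (L := L) (((hBmem m).1 hm).1 i)
          have h5 : (vv k L (m i) : ℝ) ≤ ∑ l ∈ Ico L H, (if k * 2 ^ l ≤ m i then (2 : ℝ) ^ (l - L) else 0) := by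
            have h6 : ((vv k L (m i) : ℕ) : ℝ) ≤
                ((∑ l ∈ Ico L H, if k * 2 ^ l ≤ m i then 2 ^ (l - L) else 0 : ℕ) : ℝ) := by
              exact_mod_cast h4
            refine h6.trans (le_of_eq ?_)
            push_cast
            rfl
          refine (mul_le_mul_of_nonneg_right h5 (sq_nonneg _)).trans (le_of_eq ?_)
          rw [sum_mul]
          refine sum_congr rfl fun l _ => ?_
          split_ifs
          · rfl
          · rw [zero_mul]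
      _ = ∑ l ∈ Ico L H, (2 : ℝ) ^ (l - L) * ∑ m ∈ B.filter (fun m => k * 2 ^ l ≤ m i), c m ^ 2 := by
          rw [sum_comm]
          refine sum_congr rfl fun l _ => ?_
          rw [← sum_filter, mul_sum]
      _ ≤ ∑ l ∈ Ico L H, (2 : ℝ) ^ (l - L) * (1 / 4 ^ l) ^ k := by
          apply sum_le_sum
          intro l _
          apply mul_le_mul_of_nonneg_left _ (by positivity)
          apply h1 k d e he g hg hT i l
          intro m hm
          obtain ⟨hm1, hm2⟩ := mem_filter.1 hm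
          exact ⟨((hBmem m).1 hm1).2, hm2⟩
      _ ≤ _ := dist_geom k L H hk
  have hsum : ∑ m ∈ B \ JJ k d e L, c m ^ 2 ≤ 2 * (1 / 4 ^ L) ^ k := by
    have hdR : (0 : ℝ) < d := by exact_mod_cast hd
    refine le_of_mul_le_mul_left ?_ hdR
    calc (d : ℝ) * ∑ m ∈ B \ JJ k d e L, c m ^ 2
        = ∑ m ∈ B \ JJ k d e L, (d : ℝ) * c m ^ 2 := mul_sum _ _ _
      _ ≤ ∑ m ∈ B \ JJ k d e L, ∑ i, (vv k L (m i) : ℝ) * c m ^ 2 := by
          apply sum_le_sum
          intro m hm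
          rw [← sum_mul]
          apply mul_le_mul_of_nonneg_right _ (sq_nonneg _)
          exact_mod_cast hout m hm
      _ ≤ ∑ m ∈ B, ∑ i, (vv k L (m i) : ℝ) * c m ^ 2 := by
          apply sum_le_sum_of_subset_of_nonneg sdiff_subset
          intro m _ _
          exact sum_nonneg fun i _ => by positivity
      _ = ∑ i, ∑ m ∈ B, (vv k L (m i) : ℝ) * c m ^ 2 := sum_comm
      _ ≤ ∑ _i : Fin d, 2 * (1 / 4 ^ L) ^ k := sum_le_sum fun i _ => hone i
      _ = (d : ℝ) * (2 * (1 / 4 ^ L) ^ k) := by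
          rw [sum_const, card_univ, Fintype.card_fin, nsmul_eq_mul]
  have hsplit : ∑ m ∈ B \ JJ k d e L, c m ^ 2 + ∑ m ∈ JJ k d e L, c m ^ 2 = ∑ m ∈ B, c m ^ 2 :=
    sum_sdiff hJB
  have e1 : Ds (Qd d) (EE e) (JJ k d e L) g = ∫ x, g x ^ 2 ∂(Qd d) - ∑ m ∈ JJ k d e L, c m ^ 2 := rfl
  have e2 : Ds (Qd d) (EE e) B g = ∫ x, g x ^ 2 ∂(Qd d) - ∑ m ∈ B, c m ^ 2 := rfl
  rw [e2] at h3'
  rw [e1]
  linarith

end Pool.Agent.N799.RI
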