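import Pool.Agent.N799.RI.Def

/-!
# Project RI (helper799), leaf EXP: expansion of the square of the norm (helper51)
-/

set_option autoImplicit false

namespace Pool.Agent.N799.RI

open MeasureTheory Finset

namespace EXP

variable {X : Type} [MeasurableSpace X]

theorem bm_mul {f g : X → ℝ} (hf : BM f) (hg : BM g) : BM fun x => f x * g x := by
  obtain ⟨hf1, B, hB⟩ := hf
  obtain ⟨hg1, C, hC⟩ := hg
  refine ⟨hf1.mul hg1, B * C, fun x => ?_⟩
  rw [abs_mul]
  exact mul_le_mul (hB x) (hC x) (abs_nonneg _) ((abs_nonneg _).trans (hB x))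

theorem bm_int {f : X → ℝ} (hf : BM f) (lam : Measure X) [IsProbabilityMeasure lam] :
    Integrable f lam := by
  obtain ⟨hf1, B, hB⟩ := hf
  exact Integrable.of_bound hf1.aestronglyMeasurable B (Filter.Eventually.of_forall fun x => by
    rw [Real.norm_eq_abs]
    exact hB x)

end EXP

open EXP in
theorem t_EXP : S_EXP := by
  classical
  intro X _ lam _ ι b M hON g hg c
  obtain ⟨hb, h1, h2⟩ := hON
  have e1 : ∀ x, (g x - ∑ m ∈ M, c m * b m x) ^ 2 = g x ^ 2 - ∑ m ∈ M, (2 * c m) * (g x * b m x) +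
      ∑ m ∈ M, ∑ m' ∈ M, (c m * c m') * (b m x * b m' x) := by
    intro x
    have e2 : ∑ m ∈ M, (2 * c m) * (g x * b m x) = 2 * (g x * ∑ m ∈ M, c m * b m x) := by
      rw [Finset.mul_sum, Finset.mul_sum]
      exact Finset.sum_congr rfl fun m _ => by ring
    have e3 : ∑ m ∈ M, ∑ m' ∈ M, (c m * c m') * (b m x * b m' x) =
        (∑ m ∈ M, c m * b m x) * ∑ m ∈ M, c m * b m x := by
      rw [Finset.sum_mul_sum]
      exact Finset.sum_congr rfl fun m _ => Finset.sum_congr rfl fun m' _ => by ring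
    rw [e2, e3]
    ring
  have i1 : Integrable (fun x => g x ^ 2) lam := by
    have := bm_int (bm_mul hg hg) lam
    refine this.congr (Filter.Eventually.of_forall fun x => ?_)
    show g x * g x = g x ^ 2
    ring
  have i2 : ∀ m ∈ M, Integrable (fun x => (2 * c m) * (g x * b m x)) lam := fun m hm =>
    (bm_int (bm_mul hg (hb m hm)) lam).const_mul _
  have i3 : ∀ m ∈ M, ∀ m' ∈ M, Integrable (fun x => (c m * c m') * (b m x * b m' x)) lam :=
    fun m hm m' hm' => (bm_int (bm_mul (hb m hm) (hb m' hm')) lam).const_mul _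
  have i4 : Integrable (fun x => ∑ m ∈ M, (2 * c m) * (g x * b m x)) lam :=
    integrable_finsetSum _ i2
  have i5 : Integrable (fun x => ∑ m ∈ M, ∑ m' ∈ M, (c m * c m') * (b m x * b m' x)) lam :=
    integrable_finsetSum _ fun m hm => integrable_finsetSum _ (i3 m hm)
  have e4 : ∫ x, (g x - ∑ m ∈ M, c m * b m x) ^ 2 ∂lam = ∫ x, g x ^ 2 ∂lam -
      ∑ m ∈ M, (2 * c m) * ∫ x, g x * b m x ∂lam +
      ∑ m ∈ M, ∑ m' ∈ M, (c m * c m') * ∫ x, b m x * b m' x ∂lam := by
    rw [integral_congr_ae (Filter.Eventually.of_forall e1)]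
    have a1 : ∫ x, (g x ^ 2 - ∑ m ∈ M, (2 * c m) * (g x * b m x) +
        ∑ m ∈ M, ∑ m' ∈ M, (c m * c m') * (b m x * b m' x)) ∂lam =
        ∫ x, (g x ^ 2 - ∑ m ∈ M, (2 * c m) * (g x * b m x)) ∂lam +
        ∫ x, ∑ m ∈ M, ∑ m' ∈ M, (c m * c m') * (b m x * b m' x) ∂lam :=
      integral_add (i1.sub i4) i5
    have a2 : ∫ x, (g x ^ 2 - ∑ m ∈ M, (2 * c m) * (g x * b m x)) ∂lam =
        ∫ x, g x ^ 2 ∂lam - ∫ x, ∑ m ∈ M, (2 * c m) * (g x * b m x) ∂lam :=
      integral_sub i1 i4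
    have a3 : ∫ x, ∑ m ∈ M, (2 * c m) * (g x * b m x) ∂lam =
        ∑ m ∈ M, (2 * c m) * ∫ x, g x * b m x ∂lam := by
      rw [integral_finsetSum _ i2]
      exact Finset.sum_congr rfl fun m _ => integral_const_mul _ _
    have a4 : ∫ x, ∑ m ∈ M, ∑ m' ∈ M, (c m * c m') * (b m x * b m' x) ∂lam =
        ∑ m ∈ M, ∑ m' ∈ M, (c m * c m') * ∫ x, b m x * b m' x ∂lam := by
      rw [integral_finsetSum _ fun m hm => integrable_finsetSum _ (i3 m hm)]
      refine Finset.sum_congr rfl fun m hm => ?_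
      rw [integral_finsetSum _ (i3 m hm)]
      exact Finset.sum_congr rfl fun m' _ => integral_const_mul _ _
    rw [a1, a2, a3, a4]
  have e5 : ∑ m ∈ M, ∑ m' ∈ M, (c m * c m') * ∫ x, b m x * b m' x ∂lam = ∑ m ∈ M, c m ^ 2 := by
    refine Finset.sum_congr rfl fun m hm => ?_
    rw [Finset.sum_eq_single_of_mem m hm]
    · have : ∫ x, b m x * b m x ∂lam = 1 := by
        rw [← h1 m hm]
        exact integral_congr_ae (Filter.Eventually.of_forall fun x => by
          show b m x * b m x = b m x ^ 2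
          ring)
      rw [this]
      ring
    · intro m' hm' hne
      rw [h2 m hm m' hm' hne.symm, mul_zero]
  rw [e4, e5]
  unfold Ds
  have e6 : ∑ m ∈ M, (c m - ∫ x, g x * b m x ∂lam) ^ 2 = ∑ m ∈ M, c m ^ 2 -
      ∑ m ∈ M, (2 * c m) * ∫ x, g x * b m x ∂lam + ∑ m ∈ M, (∫ x, g x * b m x ∂lam) ^ 2 := by
    rw [← Finset.sum_sub_distrib, ← Finset.sum_add_distrib]
    exact Finset.sum_congr rfl fun m _ => by ring
  rw [e6]
  ring

end Pool.Agent.N799.RI
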