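import Pool.Agent.N799.RI.Def

/-!
# Project RI (helper799), MP_7d5d9e_an: Gram-Schmidt for bounded measurable functions (helper704)
-/

set_option autoImplicit false

namespace Pool.Agent.N799.RI

open MeasureTheory Finset

section GS

variable {X : Type} [MeasurableSpace X]

theorem gs_int {g : X → ℝ} (h : BM g) (lam : Measure X) [IsProbabilityMeasure lam] :
    Integrable g lam := by
  obtain ⟨h1, B, hB⟩ := h
  exact Integrable.of_bound h1.aestronglyMeasurable B
    (Filter.Eventually.of_forall fun x => by rw [Real.norm_eq_abs]; exact hB x)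

theorem gs_mul {f g : X → ℝ} (hf : BM f) (hg : BM g) : BM fun x => f x * g x := by
  obtain ⟨h1, B, hB⟩ := hf
  obtain ⟨h2, C, hC⟩ := hg
  refine ⟨h1.mul h2, B * C, fun x => ?_⟩
  rw [abs_mul]
  exact mul_le_mul (hB x) (hC x) (abs_nonneg _) ((abs_nonneg _).trans (hB x))

theorem gs_sub {f g : X → ℝ} (hf : BM f) (hg : BM g) : BM fun x => f x - g x := by
  obtain ⟨h1, B, hB⟩ := hf
  obtain ⟨h2, C, hC⟩ := hg
  exact ⟨h1.sub h2, B + C, fun x => (abs_sub _ _).trans (add_le_add (hB x) (hC x))⟩

theorem gs_cmul {f : X → ℝ} (hf : BM f) (c : ℝ) : BM fun x => c * f x := by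
  obtain ⟨h1, B, hB⟩ := hf
  refine ⟨h1.const_mul c, |c| * B, fun x => ?_⟩
  rw [abs_mul]
  exact mul_le_mul_of_nonneg_left (hB x) (abs_nonneg _)

theorem gs_sum {ι : Type} (s : Finset ι) {f : ι → X → ℝ} (hf : ∀ i ∈ s, BM (f i)) :
    BM fun x => ∑ i ∈ s, f i x := by
  classical
  induction s using Finset.induction_on with
  | empty => exact ⟨by simp, 0, fun x => by simp⟩
  | insert a s ha ih =>
    have h1 := hf a (Finset.mem_insert_self a s)
    have h2 := ih fun i hi => hf i (Finset.mem_insert_of_mem hi)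
    obtain ⟨m1, B, hB⟩ := h1
    obtain ⟨m2, C, hC⟩ := h2
    refine ⟨?_, B + C, fun x => ?_⟩
    · simp only [Finset.sum_insert ha]
      exact m1.add m2
    · show |∑ i ∈ insert a s, f i x| ≤ B + C
      rw [Finset.sum_insert ha]
      exact (abs_add_le _ _).trans (add_le_add (hB x) (hC x))

open Classical in
/-- Gram-Schmidt -/
noncomputable def gsE (lam : Measure X) (g : ℕ → X → ℝ) (m : ℕ) : X → ℝ :=
  if ∫ y, (g m y - ∑ j : Fin m, (∫ z, g m z * gsE lam g j.1 z ∂lam) * gsE lam g j.1 y) ^ 2 ∂lam = 0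
    then fun _ => 0
  else fun x => (Real.sqrt (∫ y, (g m y - ∑ j : Fin m,
      (∫ z, g m z * gsE lam g j.1 z ∂lam) * gsE lam g j.1 y) ^ 2 ∂lam))⁻¹ *
    (g m x - ∑ j : Fin m, (∫ z, g m z * gsE lam g j.1 z ∂lam) * gsE lam g j.1 x)
termination_by m
decreasing_by all_goals exact j.2

/-- the orthogonal projection -/
noncomputable def gsG (lam : Measure X) (g : ℕ → X → ℝ) (m : ℕ) (x : X) : ℝ :=
  g m x - ∑ j ∈ range m, (∫ z, g m z * gsE lam g j z ∂lam) * gsE lam g j x

open Classical in
theorem gsE_eq (lam : Measure X) (g : ℕ → X → ℝ) (m : ℕ) : gsE lam g m =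
    if ∫ y, gsG lam g m y ^ 2 ∂lam = 0 then fun _ => 0
    else fun x => (Real.sqrt (∫ y, gsG lam g m y ^ 2 ∂lam))⁻¹ * gsG lam g m x := by
  have h : ∀ x, g m x - ∑ j : Fin m, (∫ z, g m z * gsE lam g j.1 z ∂lam) * gsE lam g j.1 x =
      gsG lam g m x := by
    intro x
    unfold gsG
    rw [Finset.sum_range]
  rw [gsE]
  simp only [h]

theorem gs_bm (lam : Measure X) {g : ℕ → X → ℝ} (hg : ∀ m, BM (g m)) (m : ℕ) :
    BM (gsE lam g m) ∧ BM (gsG lam g m) := by
  induction m using Nat.strong_induction_on with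
  | _ m ih =>
    have hG : BM (gsG lam g m) := by
      unfold gsG
      exact gs_sub (hg m) (gs_sum _ fun j hj => gs_cmul (ih j (Finset.mem_range.1 hj)).1 _)
    refine ⟨?_, hG⟩
    rw [gsE_eq]
    split_ifs with h
    · exact ⟨measurable_const, 0, fun x => by simp⟩
    · exact gs_cmul hG _

variable (lam : Measure X) [IsProbabilityMeasure lam]

omit [IsProbabilityMeasure lam] in
theorem gs_norm {g : ℕ → X → ℝ} (m : ℕ) :
    ∫ x, gsE lam g m x ^ 2 ∂lam = 1 ∨ ∀ x, gsE lam g m x = 0 := by
  rw [gsE_eq]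
  split_ifs with h
  · right; intro x; rfl
  · left
    have h0 : 0 ≤ ∫ y, gsG lam g m y ^ 2 ∂lam := integral_nonneg fun _ => sq_nonneg _
    simp only [mul_pow]
    rw [integral_const_mul, inv_pow, Real.sq_sqrt h0, inv_mul_cancel₀ h]

theorem gs_orth {g : ℕ → X → ℝ} (hg : ∀ m, BM (g m)) (m : ℕ) :
    ∀ j, j < m → ∫ x, gsE lam g j x * gsE lam g m x ∂lam = 0 := by
  induction m using Nat.strong_induction_on with
  | _ m ih =>
    intro j hj
    have hbm := fun i => (gs_bm lam hg i).1
    have key : ∫ x, gsE lam g j x * gsG lam g m x ∂lam = 0 := by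
      unfold gsG
      have e1 : ∀ x, gsE lam g j x * (g m x - ∑ i ∈ range m,
          (∫ z, g m z * gsE lam g i z ∂lam) * gsE lam g i x) =
          gsE lam g j x * g m x - ∑ i ∈ range m,
          (∫ z, g m z * gsE lam g i z ∂lam) * (gsE lam g j x * gsE lam g i x) := by
        intro x
        rw [mul_sub, Finset.mul_sum]
        congr 1
        exact Finset.sum_congr rfl fun i _ => by ring
      simp only [e1]
      rw [integral_sub (gs_int (gs_mul (hbm j) (hg m)) lam)
        (gs_int (gs_sum _ fun i _ => gs_cmul (gs_mul (hbm j) (hbm i)) _) lam),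
        integral_finsetSum _ fun i _ => gs_int (gs_cmul (gs_mul (hbm j) (hbm i)) _) lam]
      simp only [integral_const_mul]
      rw [Finset.sum_eq_single j]
      · have e2 : ∫ x, gsE lam g j x * g m x ∂lam = ∫ z, g m z * gsE lam g j z ∂lam :=
          integral_congr_ae (Filter.Eventually.of_forall fun x => mul_comm _ _)
        rw [e2]
        rcases gs_norm lam (g := g) j with h | h
        · have e3 : ∫ x, gsE lam g j x * gsE lam g j x ∂lam = 1 := by
            rw [← h]
            exact integral_congr_ae (Filter.Eventually.of_forall fun x => (sq _).symm)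
          rw [e3, mul_one, sub_self]
        · simp [h]
      · intro i hi hij
        rcases lt_or_gt_of_ne hij with hlt | hlt
        · have e4 := ih j hj i hlt
          have e5 : ∫ x, gsE lam g j x * gsE lam g i x ∂lam =
              ∫ x, gsE lam g i x * gsE lam g j x ∂lam :=
            integral_congr_ae (Filter.Eventually.of_forall fun x => mul_comm _ _)
          rw [e5, e4, mul_zero]
        · rw [ih i (Finset.mem_range.1 hi) j hlt, mul_zero]
      · intro h
        exact absurd (Finset.mem_range.2 hj) h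
    rw [gsE_eq lam g m]
    split_ifs with h
    · simp
    · have e6 : ∀ x, gsE lam g j x * ((Real.sqrt (∫ y, gsG lam g m y ^ 2 ∂lam))⁻¹ * gsG lam g m x) =
          (Real.sqrt (∫ y, gsG lam g m y ^ 2 ∂lam))⁻¹ * (gsE lam g j x * gsG lam g m x) :=
        fun x => by ring
      simp only [e6]
      rw [integral_const_mul, key, mul_zero]

theorem gs_span {g : ℕ → X → ℝ} (hg : ∀ m, BM (g m)) (m : ℕ) :
    ∃ c : ℕ → ℝ, ∀ᵐ x ∂lam, g m x = ∑ j ∈ range (m + 1), c j * gsE lam g j x := by
  classical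
  refine ⟨fun j => if j < m then ∫ z, g m z * gsE lam g j z ∂lam
    else Real.sqrt (∫ y, gsG lam g m y ^ 2 ∂lam), ?_⟩
  have hsum : ∀ x, ∑ j ∈ range (m + 1), (if j < m then ∫ z, g m z * gsE lam g j z ∂lam
      else Real.sqrt (∫ y, gsG lam g m y ^ 2 ∂lam)) * gsE lam g j x =
      ∑ j ∈ range m, (∫ z, g m z * gsE lam g j z ∂lam) * gsE lam g j x +
        Real.sqrt (∫ y, gsG lam g m y ^ 2 ∂lam) * gsE lam g m x := by
    intro x
    rw [Finset.sum_range_succ, if_neg (lt_irrefl m)]
    congr 1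
    exact Finset.sum_congr rfl fun j hj => by rw [if_pos (Finset.mem_range.1 hj)]
  have hG : ∀ x, g m x = ∑ j ∈ range m, (∫ z, g m z * gsE lam g j z ∂lam) * gsE lam g j x +
      gsG lam g m x := fun x => by unfold gsG; ring
  have h0 : 0 ≤ ∫ y, gsG lam g m y ^ 2 ∂lam := integral_nonneg fun _ => sq_nonneg _
  by_cases h : ∫ y, gsG lam g m y ^ 2 ∂lam = 0
  · have h1 : (fun y => gsG lam g m y ^ 2) =ᵐ[lam] 0 := by
      have hint : Integrable (fun y => gsG lam g m y ^ 2) lam := by
        have := gs_int (gs_mul (gs_bm lam hg m).2 (gs_bm lam hg m).2) lam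
        refine this.congr (Filter.Eventually.of_forall fun x => ?_)
        simp only [sq]
      exact (integral_eq_zero_iff_of_nonneg (fun _ => sq_nonneg _) hint).1 h
    filter_upwards [h1] with x hx
    have hx' : gsG lam g m x = 0 := by
      have : gsG lam g m x ^ 2 = 0 := hx
      exact pow_eq_zero_iff (two_ne_zero) |>.1 this
    rw [hsum, hG x, hx', h, Real.sqrt_zero, zero_mul]
  · refine Filter.Eventually.of_forall fun x => ?_
    rw [hsum, hG x]
    congr 1
    rw [gsE_eq lam g m, if_neg h]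
    have hpos : 0 < ∫ y, gsG lam g m y ^ 2 ∂lam := lt_of_le_of_ne h0 (Ne.symm h)
    have hs : Real.sqrt (∫ y, gsG lam g m y ^ 2 ∂lam) ≠ 0 := (Real.sqrt_pos.2 hpos).ne'
    show gsG lam g m x = Real.sqrt (∫ y, gsG lam g m y ^ 2 ∂lam) *
      ((Real.sqrt (∫ y, gsG lam g m y ^ 2 ∂lam))⁻¹ * gsG lam g m x)
    rw [← mul_assoc, mul_inv_cancel₀ hs, one_mul]

end GS

theorem t_GS : S_GS := by
  intro X _ lam _ g hg
  have hbm := fun i => (gs_bm lam hg i).1
  have horth : ∀ m m', m ≠ m' → ∫ x, gsE lam g m x * gsE lam g m' x ∂lam = 0 := by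
    intro m m' hne
    rcases lt_or_gt_of_ne hne with h | h
    · exact gs_orth lam hg m' m h
    · have e : ∫ x, gsE lam g m x * gsE lam g m' x ∂lam =
          ∫ x, gsE lam g m' x * gsE lam g m x ∂lam :=
        integral_congr_ae (Filter.Eventually.of_forall fun x => mul_comm _ _)
      rw [e]
      exact gs_orth lam hg m m' h
  refine ⟨gsE lam g, hbm, horth, fun m => gs_norm lam m, ?_, fun m => gs_span lam hg m⟩
  intro j m hjm
  obtain ⟨c, hc⟩ := gs_span lam hg j
  have e1 : ∫ x, g j x * gsE lam g m x ∂lam =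
      ∫ x, ∑ i ∈ range (j + 1), c i * (gsE lam g i x * gsE lam g m x) ∂lam := by
    refine integral_congr_ae ?_
    filter_upwards [hc] with x hx
    rw [hx, Finset.sum_mul]
    exact Finset.sum_congr rfl fun i _ => by ring
  rw [e1, integral_finsetSum _ fun i _ => gs_int (gs_cmul (gs_mul (hbm i) (hbm m)) _) lam]
  refine Finset.sum_eq_zero fun i hi => ?_
  rw [integral_const_mul, horth i m (by have := Finset.mem_range.1 hi; omega), mul_zero]

end Pool.Agent.N799.RI
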