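import Mathlib
import Pool.Agent.N799.RI.Def

/-!
# Project RI, part INT: the integral over the cube (helper955)
-/

set_option autoImplicit false

namespace Pool.Agent.N799.RI

open MeasureTheory Finset

theorem t_INT : S_INT := by
  intro d f
  have hcube : cube d = Set.Icc (0 : Fin d → ℝ) 1 := by
    ext x
    simp only [cube, Set.mem_ofPred_eq, Set.mem_Icc, Pi.le_def, Pi.zero_apply, Pi.one_apply]
    exact ⟨fun h => ⟨fun i => (h i).1, fun i => (h i).2⟩, fun h i => ⟨h.1 i, h.2 i⟩⟩
  have hclamp : ∀ x ∈ cube d, clamp x = x := by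
    intro x hx
    funext i
    have h := hx i
    unfold clamp
    rw [min_eq_right h.2, max_eq_right h.1]
  have h1 : ∫ x in cube d, f x = ∫ x in cube d, f (clamp x) := by
    apply setIntegral_congr_fun
    · rw [hcube]
      exact measurableSet_Icc
    · intro x hx
      show f x = f (clamp x)
      rw [hclamp x hx]
  have h2 : Qd d = (volume : Measure (Fin d → ℝ)).restrict (cube d) := by
    unfold Qd I1
    rw [← Measure.restrict_pi_pi (fun _ : Fin d => (volume : Measure ℝ))
      (fun _ => Set.Ioo (0 : ℝ) 1), hcube, volume_pi]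
    exact Measure.restrict_congr_set
      (Measure.univ_pi_Ioo_ae_eq_Icc (μ := fun _ : Fin d => (volume : Measure ℝ))
        (f := (0 : Fin d → ℝ)) (g := 1))
  rw [h1, h2]

end Pool.Agent.N799.RI
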