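import Pool.Agent.N799.RI.Def

/-!
# Randomized integration of smooth functions: the lower bound for one function value
Project RI (helper799), MP_7d5d9e_an; this part by helper195.
-/

set_option autoImplicit false

namespace Pool.Agent.N799.RI

open MeasureTheory Finset

/-- a measurable majorant with almost the same integral -/
theorem upper_lt {Ω : Type} [MeasurableSpace Ω] {μ : Measure Ω} {g : Ω → ENNReal} {a : ENNReal}
    (h : upper μ g < a) : ∃ u : Ω → ENNReal, Measurable u ∧ (∀ ω, g ω ≤ u ω) ∧ ∫⁻ ω, u ω ∂μ < a := by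
  unfold upper at h
  simp only [iInf_lt_iff] at h
  obtain ⟨u, hu, hg, h1⟩ := h
  exact ⟨u, hu, hg, h1⟩

theorem alg_card_zero {X : Type} (f : X → ℝ) (B : Alg X) (h : B.card f = 0) :
    ∃ r, B = Alg.out r := by
  cases B with
  | out r => exact ⟨r, rfl⟩
  | ask x next => simp [Alg.card] at h

theorem pair_le (s r : ℝ) : 2 * s ≤ |s - r| + |-s - r| := by
  have h1 := le_abs_self (s - r)
  have h2 := neg_le_abs (-s - r)
  linarith

/-- the inequality for deterministic algorithms -/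
theorem det_le {X : Type} (B : Alg X) (s : ℝ) (hs : 0 < s) (f₁ f₂ : X → ℝ)
    (h0 : ∀ x, f₁ x = 0 ∨ f₂ x = 0) :
    4 * s ≤ |s - B.run f₁| + |-s - B.run (fun x => - f₁ x)| + |s - B.run f₂| +
      |-s - B.run (fun x => - f₂ x)| + 2 * s * (B.card (fun _ => (0 : ℝ)) : ℝ) := by
  cases B with
  | out r =>
    simp only [Alg.run, Alg.card]
    have h1 := pair_le s r
    push_cast
    linarith
  | ask p next =>
    rcases Nat.eq_zero_or_pos ((next 0).card fun _ => (0 : ℝ)) with hc | hc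
    · obtain ⟨r, hr⟩ := alg_card_zero _ _ hc
      have hcard : ((Alg.ask p next).card fun _ => (0 : ℝ)) = 1 := by
        show ((next 0).card fun _ => (0 : ℝ)) + 1 = 1
        rw [hc]
      have h2 := pair_le s r
      have hrun : ∀ f : X → ℝ, f p = 0 → (Alg.ask p next).run f = r := by
        intro f hf
        show (next (f p)).run f = r
        rw [hf, hr]
        rfl
      have e1 := abs_nonneg (s - (Alg.ask p next).run f₁)
      have e2 := abs_nonneg (-s - (Alg.ask p next).run (fun x => - f₁ x))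
      have e3 := abs_nonneg (s - (Alg.ask p next).run f₂)
      have e4 := abs_nonneg (-s - (Alg.ask p next).run (fun x => - f₂ x))
      rcases h0 p with h | h
      · have a1 := hrun f₁ h
        have a2 := hrun (fun x => - f₁ x) (by show - f₁ p = 0; rw [h, neg_zero])
        rw [hcard, a1, a2]
        push_cast
        linarith
      · have a1 := hrun f₂ h
        have a2 := hrun (fun x => - f₂ x) (by show - f₂ p = 0; rw [h, neg_zero])
        rw [hcard, a1, a2]
        push_cast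
        linarith
    · have hcard : 2 ≤ ((Alg.ask p next).card fun _ => (0 : ℝ)) := by
        show 2 ≤ ((next 0).card fun _ => (0 : ℝ)) + 1
        omega
      have hcard' : (2 : ℝ) ≤ (((Alg.ask p next).card fun _ => (0 : ℝ)) : ℕ) := by
        exact_mod_cast hcard
      have e1 := abs_nonneg (s - (Alg.ask p next).run f₁)
      have e2 := abs_nonneg (-s - (Alg.ask p next).run (fun x => - f₁ x))
      have e3 := abs_nonneg (s - (Alg.ask p next).run f₂)
      have e4 := abs_nonneg (-s - (Alg.ask p next).run (fun x => - f₂ x))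
      nlinarith

/-- the inequality for deterministic algorithms in `ENNReal` -/
theorem det_le' {X : Type} (B : Alg X) (s : ℝ) (hs : 0 < s) (f₁ f₂ : X → ℝ)
    (h0 : ∀ x, f₁ x = 0 ∨ f₂ x = 0) :
    ENNReal.ofReal (4 * s) ≤ ENNReal.ofReal |s - B.run f₁| +
      ENNReal.ofReal |-s - B.run (fun x => - f₁ x)| + ENNReal.ofReal |s - B.run f₂| +
      ENNReal.ofReal |-s - B.run (fun x => - f₂ x)| +
      ENNReal.ofReal (2 * s) * ((B.card (fun _ => (0 : ℝ)) : ℕ) : ENNReal) := by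
  have h1 : ((B.card (fun _ => (0 : ℝ)) : ℕ) : ENNReal) =
      ENNReal.ofReal ((B.card (fun _ => (0 : ℝ)) : ℕ) : ℝ) := by
    rw [ENNReal.ofReal_natCast]
  rw [h1, ← ENNReal.ofReal_mul (by positivity), ← ENNReal.ofReal_add (by positivity) (by positivity),
    ← ENNReal.ofReal_add (by positivity) (by positivity),
    ← ENNReal.ofReal_add (by positivity) (by positivity),
    ← ENNReal.ofReal_add (by positivity) (by positivity)]
  exact ENNReal.ofReal_le_ofReal (det_le B s hs f₁ f₂ h0)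

/-- **LB** -/
theorem t_LB (h1 : S_BUMP) : S_LB := by
  intro k
  obtain ⟨s, hs, hb⟩ := h1 k
  refine ⟨s / 2, by positivity, fun d hd => ?_⟩
  obtain ⟨f₁, f₂, hf₁, hf₂, hn₁, hn₂, hz, h0, hi₁, hi₂⟩ := hb d hd
  unfold eran
  refine le_iInf₂ fun A hA => ?_
  by_contra hlt
  rw [not_le] at hlt
  obtain ⟨E, hE1, hE2⟩ := exists_between hlt
  have hEtop : E ≠ ⊤ := (lt_of_lt_of_le hE2 le_top).ne
  set e : ℝ := E.toReal with he
  have hEe : E = ENNReal.ofReal e := (ENNReal.ofReal_toReal hEtop).symm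
  have he0 : 0 ≤ e := ENNReal.toReal_nonneg
  have hes : e < s / 2 := by
    rw [hEe] at hE2
    exact (ENNReal.ofReal_lt_ofReal_iff (by positivity)).1 hE2
  have herr : ∀ f ∈ FF d k, ∃ u : A.Ω → ENNReal, Measurable u ∧
      (∀ ω, ENNReal.ofReal |(∫ x in cube d, f x) - (A.A ω).run fun x : cube d => f x| ≤ u ω) ∧
      ∫⁻ ω, u ω ∂A.μ < ENNReal.ofReal e := by
    intro f hf
    apply upper_lt
    rw [← hEe]
    refine lt_of_le_of_lt ?_ hE1
    unfold RAlg.err
    exact le_iSup₂ (f := fun f (_ : f ∈ FF d k) => upper A.μ fun ω =>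
      ENNReal.ofReal |(∫ x in cube d, f x) - (A.A ω).run fun x : cube d => f x|) f hf
  obtain ⟨u₁, hu₁, hg₁, hI₁⟩ := herr _ hf₁
  obtain ⟨u₂, hu₂, hg₂, hI₂⟩ := herr _ hn₁
  obtain ⟨u₃, hu₃, hg₃, hI₃⟩ := herr _ hf₂
  obtain ⟨u₄, hu₄, hg₄, hI₄⟩ := herr _ hn₂
  obtain ⟨u₅, hu₅, hg₅, hI₅⟩ : ∃ u : A.Ω → ENNReal, Measurable u ∧
      (∀ ω, (((A.A ω).card fun x : cube d => (0 : ℝ) : ℕ) : ENNReal) ≤ u ω) ∧
      ∫⁻ ω, u ω ∂A.μ < ENNReal.ofReal (2 - 2 * e / s) := by
    apply upper_lt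
    have h2 : upper A.μ (fun ω => (((A.A ω).card fun x : cube d => (0 : ℝ) : ℕ) : ENNReal)) ≤
        A.cardOn (FF d k) := by
      unfold RAlg.cardOn
      exact le_iSup₂ (f := fun (f : (Fin d → ℝ) → ℝ) (_ : f ∈ FF d k) => upper A.μ fun ω =>
        (((A.A ω).card fun x : cube d => f x : ℕ) : ENNReal)) (fun _ => (0 : ℝ)) hz
    refine lt_of_le_of_lt (h2.trans hA) ?_
    have h3 : ((1 : ℕ) : ENNReal) = ENNReal.ofReal 1 := by simp
    rw [h3]
    apply (ENNReal.ofReal_lt_ofReal_iff_of_nonneg (by norm_num)).2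
    have h4 : 2 * e / s < 1 := by
      rw [div_lt_one hs]
      linarith
    linarith
  have hi₁' : ∫ x in cube d, -f₁ x = -s := by rw [integral_neg, hi₁]
  have hi₂' : ∫ x in cube d, -f₂ x = -s := by rw [integral_neg, hi₂]
  have hpt : ∀ ω, ENNReal.ofReal (4 * s) ≤
      u₁ ω + u₂ ω + u₃ ω + u₄ ω + ENNReal.ofReal (2 * s) * u₅ ω := by
    intro ω
    have h2 := det_le' (A.A ω) s hs (fun x : cube d => f₁ x) (fun x : cube d => f₂ x)
      (fun x => h0 x)
    have g₁ := hg₁ ω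
    have g₂ := hg₂ ω
    have g₃ := hg₃ ω
    have g₄ := hg₄ ω
    rw [hi₁] at g₁
    rw [hi₁'] at g₂
    rw [hi₂] at g₃
    rw [hi₂'] at g₄
    refine h2.trans ?_
    gcongr
    exact hg₅ ω
  have hint : ENNReal.ofReal (4 * s) ≤ ∫⁻ ω, u₁ ω ∂A.μ + ∫⁻ ω, u₂ ω ∂A.μ + ∫⁻ ω, u₃ ω ∂A.μ +
      ∫⁻ ω, u₄ ω ∂A.μ + ENNReal.ofReal (2 * s) * ∫⁻ ω, u₅ ω ∂A.μ := by
    calc ENNReal.ofReal (4 * s) = ∫⁻ _ω, ENNReal.ofReal (4 * s) ∂A.μ := by
          rw [lintegral_const, measure_univ, mul_one]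
      _ ≤ ∫⁻ ω, (u₁ ω + u₂ ω + u₃ ω + u₄ ω + ENNReal.ofReal (2 * s) * u₅ ω) ∂A.μ :=
          lintegral_mono hpt
      _ = _ := by
          rw [lintegral_add_left (by fun_prop), lintegral_add_left (by fun_prop),
            lintegral_add_left (by fun_prop), lintegral_add_left (by fun_prop),
            lintegral_const_mul _ hu₅]
  have hfin : ∫⁻ ω, u₁ ω ∂A.μ + ∫⁻ ω, u₂ ω ∂A.μ + ∫⁻ ω, u₃ ω ∂A.μ +
      ∫⁻ ω, u₄ ω ∂A.μ + ENNReal.ofReal (2 * s) * ∫⁻ ω, u₅ ω ∂A.μ <
      ENNReal.ofReal e + ENNReal.ofReal e + ENNReal.ofReal e + ENNReal.ofReal e +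
        ENNReal.ofReal (2 * s) * ENNReal.ofReal (2 - 2 * e / s) := by
    refine ENNReal.add_lt_add_of_lt_of_le ?_ ?_ ?_
    · exact (ENNReal.mul_lt_top ENNReal.ofReal_lt_top (hI₅.trans ENNReal.ofReal_lt_top)).ne
    · exact ENNReal.add_lt_add (ENNReal.add_lt_add (ENNReal.add_lt_add hI₁ hI₂) hI₃) hI₄
    · gcongr
  have hval : ENNReal.ofReal e + ENNReal.ofReal e + ENNReal.ofReal e + ENNReal.ofReal e +
        ENNReal.ofReal (2 * s) * ENNReal.ofReal (2 - 2 * e / s) = ENNReal.ofReal (4 * s) := by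
    have h4 : 2 * e / s < 1 := by
      rw [div_lt_one hs]
      linarith
    rw [← ENNReal.ofReal_mul (by positivity), ← ENNReal.ofReal_add he0 he0,
      ← ENNReal.ofReal_add (by positivity) he0, ← ENNReal.ofReal_add (by positivity) he0,
      ← ENNReal.ofReal_add (by positivity) (mul_nonneg (by positivity) (by linarith))]
    congr 1
    field_simp
    ring
  rw [hval] at hfin
  exact absurd (lt_of_le_of_lt hint hfin) (lt_irrefl _)

end Pool.Agent.N799.RI
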