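import Pool.Agent.N799.RI.Def

/-!
# Project RI (helper799): the Lipschitz condition
-/

set_option autoImplicit false

namespace Pool.Agent.N799.RI

open MeasureTheory Finset

namespace LLIP

theorem clamp_eq {d : ℕ} {x : Fin d → ℝ} (hx : x ∈ openCube d) : clamp x = x := by
  funext i
  have h := hx i
  show max 0 (min 1 (x i)) = x i
  rw [min_eq_right h.2.le, max_eq_right h.1.le]

theorem isOpen_oc (d : ℕ) : IsOpen (openCube d) := by
  have h : openCube d = Set.pi Set.univ fun _ => Set.Ioo (0 : ℝ) 1 := by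
    ext x
    simp [openCube]
  rw [h]
  exact isOpen_set_pi Set.finite_univ fun _ _ => isOpen_Ioo

theorem seg {d : ℕ} {x y : Fin d → ℝ} (hx : x ∈ openCube d) (hy : y ∈ openCube d) {s : ℝ}
    (hs : s ∈ Set.Icc (0 : ℝ) 1) : x + s • (y - x) ∈ openCube d := by
  intro i
  have h1 := hx i
  have h2 := hy i
  have h3 : (x + s • (y - x)) i = (1 - s) * x i + s * y i := by
    show x i + s * (y i - x i) = _
    ring
  rw [h3]
  obtain ⟨hs0, hs1⟩ := hs
  constructor
  · rcases hs0.eq_or_lt with h | h
    · rw [← h]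
      simpa using h1.1
    · have : 0 < s * y i := mul_pos h h2.1
      have : 0 ≤ (1 - s) * x i := mul_nonneg (by linarith) h1.1.le
      linarith
  · rcases hs0.eq_or_lt with h | h
    · rw [← h]
      simpa using h1.2
    · have h4 : s * y i < s * 1 := mul_lt_mul_of_pos_left h2.2 h
      have h5 : (1 - s) * x i ≤ (1 - s) * 1 := mul_le_mul_of_nonneg_left h1.2.le (by linarith)
      linarith

theorem lin_le {d : ℕ} (L : (Fin d → ℝ) →L[ℝ] ℝ) (hL : ∀ i, |L (Pi.single i 1)| ≤ 1)
    (v : Fin d → ℝ) : |L v| ≤ ∑ i, |v i| := by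
  have h1 : v = ∑ i, v i • (Pi.single i 1 : Fin d → ℝ) := by
    funext j
    rw [Finset.sum_apply]
    simp [Pi.single_apply]
  have h2 : L v = ∑ i, v i * L (Pi.single i 1) := by
    conv_lhs => rw [h1]
    rw [map_sum]
    refine sum_congr rfl fun i _ => ?_
    rw [map_smul, smul_eq_mul]
  rw [h2]
  refine (abs_sum_le_sum_abs _ _).trans (sum_le_sum fun i _ => ?_)
  rw [abs_mul]
  exact mul_le_of_le_one_right (abs_nonneg _) (hL i)

end LLIP

/-- **The Lipschitz condition.** -/
theorem t_LIP : S_LIP := by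
  intro d k f hk hf x hx y hy
  obtain ⟨-, hd, hb⟩ := hf
  show |f (clamp x) - f (clamp y)| ≤ ∑ i, |x i - y i|
  rw [LLIP.clamp_eq hx, LLIP.clamp_eq hy]
  have hdiff : ∀ z ∈ openCube d, DifferentiableAt ℝ f z := by
    intro z hz
    have h1 : ContDiffAt ℝ k f z := hd.contDiffAt ((LLIP.isOpen_oc d).mem_nhds hz)
    exact h1.differentiableAt (by
      intro h
      have : k = 0 := by exact_mod_cast h
      omega)
  have hbd : ∀ z ∈ openCube d, ∀ i, |fderiv ℝ f z (Pi.single i 1)| ≤ 1 := by
    intro z hz i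
    have h1 := hb 1 hk (fun _ => i) z hz
    rw [iteratedFDeriv_one_apply] at h1
    exact h1
  have key := norm_image_sub_le_of_norm_deriv_le_segment_01'
    (f := fun s : ℝ => f (x + s • (y - x))) (f' := fun s => fderiv ℝ f (x + s • (y - x)) (y - x))
    (C := ∑ i, |x i - y i|) (fun s hs => by
      have h1 : HasDerivAt (fun s : ℝ => x + s • (y - x)) (y - x) s := by
        have := ((hasDerivAt_id s).smul_const (y - x)).const_add x
        simpa using this
      exact ((hdiff _ (LLIP.seg hx hy hs)).hasFDerivAt.comp_hasDerivAt s h1).hasDerivWithinAt)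
    (fun s hs => by
      rw [Real.norm_eq_abs]
      refine (LLIP.lin_le _ (hbd _ (LLIP.seg hx hy ⟨hs.1, hs.2.le⟩)) _).trans (le_of_eq ?_)
      refine sum_congr rfl fun i _ => ?_
      rw [Pi.sub_apply, abs_sub_comm])
  simp only [one_smul, zero_smul, add_zero, add_sub_cancel] at key
  rw [Real.norm_eq_abs, abs_sub_comm] at key
  exact key

end Pool.Agent.N799.RI
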