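import Pool.Agent.N799.RI.Def

/-! Project RI (helper799), part ORTH (helper698): tensor products are orthonormal. -/

set_option autoImplicit false

namespace Pool.Agent.N799.RI

open MeasureTheory Finset

theorem orth_bm {d : ℕ} {e : ℕ → ℝ → ℝ} (he : ∀ m, BM (e m)) (m : Fin d → ℕ) :
    BM (EE e m) := by
  refine ⟨?_, ?_⟩
  · unfold EE
    exact Finset.measurable_fun_prod _ fun i _ => (he (m i)).1.comp (measurable_pi_apply i)
  · choose B hB using fun i : Fin d => (he (m i)).2
    refine ⟨∏ i, B i, fun x => ?_⟩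
    unfold EE
    rw [Finset.abs_prod]
    exact Finset.prod_le_prod (fun i _ => abs_nonneg _) fun i _ => hB i (x i)

theorem orth_prod {d : ℕ} (f : Fin d → ℝ → ℝ) :
    ∫ x, ∏ i, f i (x i) ∂(Qd d) = ∏ i, ∫ t, f i t ∂I1 := by
  unfold Qd
  exact integral_fintype_prod_eq_prod (μ := fun _ : Fin d => I1) f

theorem t_ORTH : S_ORTH := by
  intro k d e he S hS
  refine ⟨fun m _ => orth_bm he.bm m, fun m hm => ?_, fun m _ m' _ hne => ?_⟩
  · have h1 : (fun x : Fin d → ℝ => EE e m x ^ 2) = fun x => ∏ i, (fun t => e (m i) t ^ 2) (x i) := by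
      funext x
      unfold EE
      rw [Finset.prod_pow]
    rw [h1, orth_prod (fun i t => e (m i) t ^ 2)]
    exact Finset.prod_eq_one fun i _ => hS m hm i
  · have h1 : (fun x : Fin d → ℝ => EE e m x * EE e m' x) =
        fun x => ∏ i, (fun t => e (m i) t * e (m' i) t) (x i) := by
      funext x
      unfold EE
      rw [Finset.prod_mul_distrib]
    rw [h1, orth_prod (fun i t => e (m i) t * e (m' i) t)]
    obtain ⟨i, hi⟩ := Function.ne_iff.1 hne
    exact Finset.prod_eq_zero (Finset.mem_univ i) (he.orth _ _ hi)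

end Pool.Agent.N799.RI
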