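import Pool.Agent.N799.RI.Def

/-!
# Project RI, part QUAD (helper765): the quadrature formula from a scheme
-/

set_option autoImplicit false

namespace Pool.Agent.N799.RI

open MeasureTheory Finset

private theorem q_const {X : Type} [MeasurableSpace X] (r : ℝ) : BM (fun _ : X => r) :=
  ⟨measurable_const, |r|, fun _ => le_rfl⟩

private theorem q_comp {X Y : Type} [MeasurableSpace X] [MeasurableSpace Y] {g : X → ℝ}
    (hg : BM g) {f : Y → X} (hf : Measurable f) : BM (fun y => g (f y)) :=
  ⟨hg.1.comp hf, hg.2.imp fun _ hB y => hB (f y)⟩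

private theorem q_add {X : Type} [MeasurableSpace X] {f g : X → ℝ} (hf : BM f) (hg : BM g) :
    BM (fun x => f x + g x) := by
  obtain ⟨h1, B, h2⟩ := hf
  obtain ⟨h3, C, h4⟩ := hg
  exact ⟨h1.add h3, B + C, fun x => (abs_add_le _ _).trans (add_le_add (h2 x) (h4 x))⟩

private theorem q_sub {X : Type} [MeasurableSpace X] {f g : X → ℝ} (hf : BM f) (hg : BM g) :
    BM (fun x => f x - g x) := by
  obtain ⟨h1, B, h2⟩ := hf
  obtain ⟨h3, C, h4⟩ := hg
  exact ⟨h1.sub h3, B + C, fun x => (abs_sub _ _).trans (add_le_add (h2 x) (h4 x))⟩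

private theorem q_mul {X : Type} [MeasurableSpace X] {f g : X → ℝ} (hf : BM f) (hg : BM g) :
    BM (fun x => f x * g x) := by
  obtain ⟨h1, B, h2⟩ := hf
  obtain ⟨h3, C, h4⟩ := hg
  refine ⟨h1.mul h3, B * C, fun x => ?_⟩
  rw [abs_mul]
  exact mul_le_mul (h2 x) (h4 x) (abs_nonneg _) ((abs_nonneg _).trans (h2 x))

private theorem q_sum {X ι : Type} [MeasurableSpace X] (s : Finset ι) (f : ι → X → ℝ)
    (h : ∀ i ∈ s, BM (f i)) : BM (fun x => ∑ i ∈ s, f i x) := by
  classical
  induction s using Finset.induction_on with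
  | empty => simpa using q_const (X := X) 0
  | insert i s hi ih =>
    have h1 := q_add (h i (mem_insert_self i s)) (ih fun j hj => h j (mem_insert_of_mem hj))
    simpa [Finset.sum_insert hi] using h1

private theorem q_int {X : Type} [MeasurableSpace X] {μ : Measure X} [IsFiniteMeasure μ]
    {g : X → ℝ} (hg : BM g) : Integrable g μ := by
  obtain ⟨h1, B, h2⟩ := hg
  exact Integrable.of_bound h1.aestronglyMeasurable B (Filter.Eventually.of_forall h2)

/-- part QUAD -/
theorem t_QUAD (h1 : S_VAR) : S_QUAD := by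
  intro X _ lam _ ι b G J n N a hb hN ha hG hS
  obtain ⟨Ω, mΩ, P, hP, pts, c, hpts, hc, hsch⟩ := hS
  have hN0 : (0 : ℝ) < N := by exact_mod_cast hN
  -- the functions
  obtain ⟨φ, hφ⟩ : ∃ φ : Fin n → Ω × X → ℝ, φ = fun k p => ∑ m ∈ J, c k m p.1 * b m p.2 := ⟨_, rfl⟩
  have hφB : ∀ k, BM (φ k) := by
    intro k
    rw [hφ]
    exact q_sum J _ fun m hm => q_mul (q_comp (hc k m) measurable_fst)
      (q_comp (hb m hm) measurable_snd)
  refine ⟨Ω × (Fin N → X), inferInstance, P.prod (Measure.pi fun _ => lam), inferInstance,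
    Fin.append (fun k ω => pts k ω.1) (fun i ω => ω.2 i),
    Fin.append (fun k ω => ∑ m ∈ J, c k m ω.1 * (∫ x, b m x ∂lam) -
      (1 / (N : ℝ)) * ∑ i, φ k (ω.1, ω.2 i)) (fun _ _ => 1 / (N : ℝ)), ?_, ?_, ?_⟩
  · intro k
    refine Fin.addCases (fun k => ?_) (fun i => ?_) k
    · rw [Fin.append_left]
      exact (hpts k).comp measurable_fst
    · rw [Fin.append_right]
      exact (measurable_pi_apply i).comp measurable_snd
  · intro k
    refine Fin.addCases (fun k => ?_) (fun i => ?_) k
    · rw [Fin.append_left]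
      refine q_sub ?_ ?_
      · exact q_sum J _ fun m _ => q_mul (q_comp (hc k m) measurable_fst) (q_const _)
      · refine q_mul (q_const _) ?_
        refine q_sum univ _ fun i _ => q_comp (hφB k) ?_
        exact measurable_fst.prodMk ((measurable_pi_apply i).comp measurable_snd)
    · rw [Fin.append_right]
      exact q_const _
  · intro g hg
    have hgB := hG g hg
    obtain ⟨R, hR⟩ : ∃ R : Ω × X → ℝ, R = fun p => g p.2 - ∑ k, g (pts k p.1) * φ k p := ⟨_, rfl⟩
    have hRB : BM R := by
      rw [hR]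
      exact q_sub (q_comp hgB measurable_snd) (q_sum univ _ fun k _ =>
        q_mul (q_comp hgB ((hpts k).comp measurable_fst)) (hφB k))
    have hRω : ∀ ω, BM (fun x => R (ω, x)) := fun ω => q_comp hRB measurable_prodMk_left
    obtain ⟨Z, hZ⟩ : ∃ Z : Ω × (Fin N → X) → ℝ, Z = fun p =>
      (1 / (N : ℝ)) * ∑ i, R (p.1, p.2 i) - ∫ x, R (p.1, x) ∂lam := ⟨_, rfl⟩
    have hintR : ∀ ω, ∫ x, R (ω, x) ∂lam =
        ∫ x, g x ∂lam - ∑ k, g (pts k ω) * ∑ m ∈ J, c k m ω * ∫ x, b m x ∂lam := by
      intro ω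
      rw [hR]
      simp only
      rw [integral_sub (q_int hgB) (q_int (q_sum univ _ fun k _ =>
        q_mul (q_const (g (pts k ω))) (q_comp (hφB k) measurable_prodMk_left)))]
      congr 1
      rw [integral_finsetSum _ fun k _ =>
        q_int (q_mul (q_const (g (pts k ω))) (q_comp (hφB k) measurable_prodMk_left))]
      refine Finset.sum_congr rfl fun k _ => ?_
      rw [integral_const_mul]
      congr 1
      rw [hφ]
      simp only
      rw [integral_finsetSum _ fun m hm => q_int (q_mul (q_const (c k m ω)) (hb m hm))]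
      refine Finset.sum_congr rfl fun m _ => ?_
      rw [integral_const_mul]
    have herr : ∀ p : Ω × (Fin N → X), ∫ x, g x ∂lam - ∑ k : Fin (n + N),
        (Fin.append (fun k (ω : Ω × (Fin N → X)) => ∑ m ∈ J, c k m ω.1 * (∫ x, b m x ∂lam) -
          (1 / (N : ℝ)) * ∑ i, φ k (ω.1, ω.2 i)) (fun _ _ => 1 / (N : ℝ))) k p *
        g ((Fin.append (fun k (ω : Ω × (Fin N → X)) => pts k ω.1) (fun i ω => ω.2 i)) k p) =
        - Z p := by
      intro p
      rw [Fin.sum_univ_add]
      simp only [Fin.append_left, Fin.append_right]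
      rw [hZ]
      simp only
      rw [hintR]
      have e1 : ∑ i, R (p.1, p.2 i) = ∑ i, g (p.2 i) - ∑ k, g (pts k p.1) *
          ∑ i, φ k (p.1, p.2 i) := by
        rw [hR]
        simp only
        rw [Finset.sum_sub_distrib, Finset.sum_comm]
        congr 1
        refine Finset.sum_congr rfl fun k _ => ?_
        rw [Finset.mul_sum]
      rw [e1]
      have e2 : ∑ k, (∑ m ∈ J, c k m p.1 * (∫ x, b m x ∂lam) -
          (1 / (N : ℝ)) * ∑ i, φ k (p.1, p.2 i)) * g (pts k p.1) =
          ∑ k, g (pts k p.1) * ∑ m ∈ J, c k m p.1 * (∫ x, b m x ∂lam) -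
          (1 / (N : ℝ)) * ∑ k, g (pts k p.1) * ∑ i, φ k (p.1, p.2 i) := by
        rw [Finset.mul_sum, ← Finset.sum_sub_distrib]
        refine Finset.sum_congr rfl fun k _ => ?_
        ring
      rw [e2, ← Finset.mul_sum]
      ring
    have hZB : BM Z := by
      rw [hZ]
      refine q_sub (q_mul (q_const _) (q_sum univ _ fun i _ => q_comp hRB ?_)) ?_
      · exact measurable_fst.prodMk ((measurable_pi_apply i).comp measurable_snd)
      · have e1 : (fun p : Ω × (Fin N → X) => ∫ x, R (p.1, x) ∂lam) = fun p =>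
            ∫ x, g x ∂lam - ∑ k, g (pts k p.1) * ∑ m ∈ J, c k m p.1 * ∫ x, b m x ∂lam := by
          funext p
          exact hintR p.1
        rw [e1]
        refine q_sub (q_const _) (q_sum univ _ fun k _ => q_mul
          (q_comp hgB ((hpts k).comp measurable_fst)) (q_sum J _ fun m _ =>
            q_mul (q_comp (hc k m) measurable_fst) (q_const _)))
    have hZ2 : BM (fun p => Z p ^ 2) := by
      have := q_mul hZB hZB
      simpa [sq] using this
    have hR2 : BM (fun p => R p ^ 2) := by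
      have := q_mul hRB hRB
      simpa [sq] using this
    obtain ⟨V, hV⟩ : ∃ V, V = ∫ p, Z p ^ 2 ∂(P.prod (Measure.pi fun _ : Fin N => lam)) :=
      ⟨_, rfl⟩
    have hVle : V ≤ a / N := by
      rw [hV, integral_prod _ (q_int hZ2)]
      calc ∫ ω, ∫ y : Fin N → X, Z (ω, y) ^ 2 ∂(Measure.pi fun _ => lam) ∂P
          ≤ ∫ ω, (1 / (N : ℝ)) * ∫ x, R (ω, x) ^ 2 ∂lam ∂P := by
            refine integral_mono (q_int hZ2).integral_prod_left
              ((q_int hR2).integral_prod_left.const_mul _) fun ω => ?_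
            have := h1 X lam (fun x => R (ω, x)) (hRω ω) N hN
            rw [hZ]
            exact this
        _ = (1 / (N : ℝ)) * ∫ ω, ∫ x, R (ω, x) ^ 2 ∂lam ∂P := integral_const_mul _ _
        _ ≤ (1 / (N : ℝ)) * a := by
            refine mul_le_mul_of_nonneg_left ?_ (by positivity)
            have := hsch g hg
            rw [hR, hφ]
            exact this
        _ = a / N := by ring
    obtain ⟨E, hE⟩ : ∃ E, E = ∫ p, |Z p| ∂(P.prod (Measure.pi fun _ : Fin N => lam)) :=
      ⟨_, rfl⟩
    have hEV : E ^ 2 ≤ V := by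
      have e0 : 0 ≤ ∫ p, (|Z p| - E) ^ 2 ∂(P.prod (Measure.pi fun _ : Fin N => lam)) :=
        integral_nonneg fun p => sq_nonneg _
      have e1 : ∀ p, (|Z p| - E) ^ 2 = (Z p ^ 2 - (2 * E) * |Z p|) + E ^ 2 := by
        intro p
        rw [← sq_abs (Z p)]
        ring
      simp only [e1] at e0
      have i1 : Integrable (fun p => |Z p|) (P.prod (Measure.pi fun _ : Fin N => lam)) :=
        (q_int hZB).abs
      have i2 : Integrable (fun p => 2 * E * |Z p|) (P.prod (Measure.pi fun _ : Fin N => lam)) :=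
        i1.const_mul _
      have i3 : Integrable (fun p => Z p ^ 2 - 2 * E * |Z p|)
          (P.prod (Measure.pi fun _ : Fin N => lam)) := (q_int hZ2).sub i2
      rw [integral_add i3 (integrable_const _), integral_sub (q_int hZ2) i2, integral_const_mul,
        ← hE, ← hV] at e0
      simp only [integral_const, probReal_univ, one_smul] at e0
      nlinarith
    have hgoal : ∫ ω, |∫ x, g x ∂lam - ∑ k : Fin (n + N),
        (Fin.append (fun k (ω : Ω × (Fin N → X)) => ∑ m ∈ J, c k m ω.1 * (∫ x, b m x ∂lam) -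
          (1 / (N : ℝ)) * ∑ i, φ k (ω.1, ω.2 i)) (fun _ _ => 1 / (N : ℝ))) k ω *
        g ((Fin.append (fun k (ω : Ω × (Fin N → X)) => pts k ω.1) (fun i ω => ω.2 i)) k ω)|
        ∂(P.prod (Measure.pi fun _ : Fin N => lam)) = E := by
      rw [hE]
      refine integral_congr_ae (Filter.Eventually.of_forall fun p => ?_)
      simp only
      rw [herr p, abs_neg]
    rw [hgoal]
    refine Real.le_sqrt_of_sq_le (hEV.trans hVle)

end Pool.Agent.N799.RI
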