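import Pool.Agent.N799.RI.Def

/-!
# Project RI, part STEP: the recursion (helper380)
-/

set_option autoImplicit false

namespace Pool.Agent.N799.RI

open MeasureTheory Finset

namespace StepH

section bm

variable {X Y : Type} [MeasurableSpace X] [MeasurableSpace Y]

theorem bm_const (c : ℝ) : BM (fun _ : X => c) := ⟨measurable_const, |c|, fun _ => le_rfl⟩

theorem bm_add {f g : X → ℝ} (hf : BM f) (hg : BM g) : BM (fun x => f x + g x) := by
  obtain ⟨h1, B, hB⟩ := hf
  obtain ⟨h2, C, hC⟩ := hg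
  exact ⟨h1.add h2, B + C, fun x => (abs_add_le _ _).trans (add_le_add (hB x) (hC x))⟩

theorem bm_sub {f g : X → ℝ} (hf : BM f) (hg : BM g) : BM (fun x => f x - g x) := by
  obtain ⟨h1, B, hB⟩ := hf
  obtain ⟨h2, C, hC⟩ := hg
  exact ⟨h1.sub h2, B + C, fun x => (abs_sub _ _).trans (add_le_add (hB x) (hC x))⟩

theorem bm_mul {f g : X → ℝ} (hf : BM f) (hg : BM g) : BM (fun x => f x * g x) := by
  obtain ⟨h1, B, hB⟩ := hf
  obtain ⟨h2, C, hC⟩ := hg
  refine ⟨h1.mul h2, B * C, fun x => ?_⟩
  rw [abs_mul]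
  exact mul_le_mul (hB x) (hC x) (abs_nonneg _) ((abs_nonneg _).trans (hB x))

theorem bm_sum {κ : Type} (s : Finset κ) {f : κ → X → ℝ} (h : ∀ i ∈ s, BM (f i)) :
    BM (fun x => ∑ i ∈ s, f i x) := by
  classical
  induction s using Finset.induction_on with
  | empty => simpa using bm_const (X := X) 0
  | insert a s ha ih =>
    have h1 := bm_add (h a (mem_insert_self _ _)) (ih fun i hi => h i (mem_insert_of_mem hi))
    have h2 : (fun x => ∑ i ∈ insert a s, f i x) = fun x => f a x + ∑ i ∈ s, f i x := by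
      funext x
      rw [sum_insert ha]
    rw [h2]
    exact h1

theorem bm_comp {f : X → ℝ} (hf : BM f) {u : Y → X} (hu : Measurable u) :
    BM (fun y => f (u y)) := by
  obtain ⟨h1, B, hB⟩ := hf
  exact ⟨h1.comp hu, B, fun y => hB _⟩

theorem bm_sq {f : X → ℝ} (hf : BM f) : BM (fun x => f x ^ 2) := by
  have h := bm_mul hf hf
  have h2 : (fun x => f x ^ 2) = fun x => f x * f x := by
    funext x
    ring
  rw [h2]
  exact h

theorem bm_int (μ : Measure X) [IsFiniteMeasure μ] {f : X → ℝ} (hf : BM f) : Integrable f μ := by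
  obtain ⟨h1, B, hB⟩ := hf
  exact Integrable.of_bound h1.aestronglyMeasurable B
    (Filter.Eventually.of_forall fun x => by rw [Real.norm_eq_abs]; exact hB x)

theorem bm_param {F : X × Y → ℝ} (hF : BM F) (ν : Measure Y) [IsProbabilityMeasure ν] :
    BM (fun x => ∫ y, F (x, y) ∂ν) := by
  obtain ⟨h1, B, hB⟩ := hF
  refine ⟨h1.stronglyMeasurable.integral_prod_right'.measurable, B, fun x => ?_⟩
  have h2 := norm_integral_le_of_norm_le_const (μ := ν) (f := fun y => F (x, y)) (C := B)
    (Filter.Eventually.of_forall fun y => by rw [Real.norm_eq_abs]; exact hB _)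
  rw [Real.norm_eq_abs] at h2
  simpa using h2

end bm

/-- the distance does not increase if an element of the span is subtracted -/
theorem ds_le (h2 : S_EXP) {X : Type} [MeasurableSpace X] (lam : Measure X)
    [IsProbabilityMeasure lam] {ι : Type} (b : ι → X → ℝ) (M : Finset ι) (hON : ON lam b M)
    (g : X → ℝ) (hg : BM g) (d : ι → ℝ) :
    Ds lam b M (fun x => g x - ∑ m ∈ M, d m * b m x) ≤ Ds lam b M g := by
  have hg' : BM (fun x => g x - ∑ m ∈ M, d m * b m x) :=
    bm_sub hg (bm_sum _ fun i hi => bm_mul (bm_const _) (hON.1 i hi))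
  have e1 := h2 X lam ι b M hON g hg (fun m => ∫ x, g x * b m x ∂lam)
  have e2 := h2 X lam ι b M hON _ hg' (fun m => (∫ x, g x * b m x ∂lam) - d m)
  have e3 : (fun x => (g x - ∑ m ∈ M, d m * b m x - ∑ m ∈ M,
      ((∫ x, g x * b m x ∂lam) - d m) * b m x) ^ 2) =
      fun x => (g x - ∑ m ∈ M, (∫ x, g x * b m x ∂lam) * b m x) ^ 2 := by
    funext x
    congr 1
    have : ∑ m ∈ M, ((∫ x, g x * b m x ∂lam) - d m) * b m x =
        ∑ m ∈ M, (∫ x, g x * b m x ∂lam) * b m x - ∑ m ∈ M, d m * b m x := by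
      rw [← sum_sub_distrib]
      exact sum_congr rfl fun m _ => by ring
    rw [this]
    ring
  rw [e3, e1] at e2
  have e4 : ∑ m ∈ M, ((∫ x, g x * b m x ∂lam) - ∫ x, g x * b m x ∂lam) ^ 2 = 0 :=
    sum_eq_zero fun m _ => by ring
  rw [e4, add_zero] at e2
  have e5 : 0 ≤ ∑ m ∈ M, ((∫ x, g x * b m x ∂lam) - d m -
      ∫ x, (g x - ∑ m ∈ M, d m * b m x) * b m x ∂lam) ^ 2 := sum_nonneg fun m _ => sq_nonneg _
  linarith

end StepH

open StepH in
theorem t_STEP (h1 : S_STEP1) (h2 : S_EXP) : S_STEP := by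
  classical
  intro X _ lam _ ι b G J J' n N a s hJJ hJne hON hN hG hDs hS
  obtain ⟨ν, hν, κ, hκ, hstep⟩ := h1 X lam ι b J' hON hJne N hN
  obtain ⟨Ω, mΩ, P, hP, pts, c, hpts, hc, hbd⟩ := hS
  have hb : ∀ m ∈ J', BM (b m) := hON.1
  have hbJ : ∀ m ∈ J, BM (b m) := fun m hm => hb m (hJJ hm)
  refine ⟨Ω × (Fin N → X), inferInstance, P.prod (Measure.pi fun _ => ν), inferInstance,
    Fin.addCases (fun k ω' => pts k ω'.1) (fun i ω' => ω'.2 i),
    Fin.addCases (fun k m ω' => (if m ∈ J then c k m ω'.1 else 0) -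
        ∑ i, (∑ m' ∈ J, c k m' ω'.1 * b m' (ω'.2 i)) * κ (ω'.2 i) m)
      (fun i m ω' => κ (ω'.2 i) m), ?_, ?_, ?_⟩
  · intro k
    refine Fin.addCases (fun k => ?_) (fun i => ?_) k
    · simp only [Fin.addCases_left]
      exact (hpts k).comp measurable_fst
    · simp only [Fin.addCases_right]
      exact (measurable_pi_apply i).comp measurable_snd
  · intro k m
    have hy : ∀ i : Fin N, Measurable fun ω' : Ω × (Fin N → X) => ω'.2 i :=
      fun i => (measurable_pi_apply i).comp measurable_snd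
    refine Fin.addCases (fun k => ?_) (fun i => ?_) k
    · simp only [Fin.addCases_left]
      refine bm_sub ?_ (bm_sum _ fun i _ => bm_mul (bm_sum _ fun m' hm' =>
        bm_mul (bm_comp (hc k m') measurable_fst) (bm_comp (hbJ m' hm') (hy i)))
        (bm_comp (hκ m) (hy i)))
      by_cases hm : m ∈ J
      · simp only [hm, if_true]
        exact bm_comp (hc k m) measurable_fst
      · simp only [hm, if_false]
        exact bm_const 0
    · simp only [Fin.addCases_right]
      exact bm_comp (hκ m) (hy i)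
  · intro g hgG
    have hg := hG g hgG
    -- the residual
    obtain ⟨R, hR⟩ : ∃ R : Ω → X → ℝ, ∀ ω x, R ω x =
        g x - ∑ k, g (pts k ω) * ∑ m ∈ J, c k m ω * b m x := ⟨_, fun _ _ => rfl⟩
    have hkey : ∀ (ω : Ω) (y : Fin N → X) (x : X),
        g x - ∑ k : Fin (n + N), g (Fin.addCases (fun k (ω' : Ω × (Fin N → X)) => pts k ω'.1)
          (fun i ω' => ω'.2 i) k (ω, y)) * ∑ m ∈ J',
          Fin.addCases (motive := fun _ => ι → Ω × (Fin N → X) → ℝ)
            (fun k m ω' => (if m ∈ J then c k m ω'.1 else 0) -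
            ∑ i, (∑ m' ∈ J, c k m' ω'.1 * b m' (ω'.2 i)) * κ (ω'.2 i) m)
            (fun i m ω' => κ (ω'.2 i) m) k m (ω, y) * b m x =
        R ω x - ∑ i, R ω (y i) * ∑ m ∈ J', κ (y i) m * b m x := by
      intro ω y x
      rw [Fin.sum_univ_add]
      simp only [Fin.addCases_left, Fin.addCases_right]
      have hA : ∀ k, ∑ m ∈ J', ((if m ∈ J then c k m ω else 0) -
          ∑ i, (∑ m' ∈ J, c k m' ω * b m' (y i)) * κ (y i) m) * b m x =
          ∑ m ∈ J, c k m ω * b m x -
            ∑ i, (∑ m' ∈ J, c k m' ω * b m' (y i)) * ∑ m ∈ J', κ (y i) m * b m x := by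
        intro k
        have hA1 : ∑ m ∈ J', (if m ∈ J then c k m ω else 0) * b m x =
            ∑ m ∈ J, c k m ω * b m x := by
          rw [← sum_subset hJJ]
          · exact sum_congr rfl fun m hm => by rw [if_pos hm]
          · intro m _ hm
            rw [if_neg hm, zero_mul]
        have hA2 : ∑ m ∈ J', (∑ i, (∑ m' ∈ J, c k m' ω * b m' (y i)) * κ (y i) m) * b m x =
            ∑ i, (∑ m' ∈ J, c k m' ω * b m' (y i)) * ∑ m ∈ J', κ (y i) m * b m x := by
          simp only [sum_mul (s := (univ : Finset (Fin N)))]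
          rw [sum_comm]
          refine sum_congr rfl fun i _ => ?_
          rw [mul_sum]
          exact sum_congr rfl fun m _ => by ring
        rw [← hA1, ← hA2, ← sum_sub_distrib]
        exact sum_congr rfl fun m _ => by ring
      simp only [hA, hR]
      have hB : ∑ k, g (pts k ω) * (∑ m ∈ J, c k m ω * b m x -
          ∑ i, (∑ m' ∈ J, c k m' ω * b m' (y i)) * ∑ m ∈ J', κ (y i) m * b m x) =
          ∑ k, g (pts k ω) * ∑ m ∈ J, c k m ω * b m x -
          ∑ i, (∑ k, g (pts k ω) * ∑ m' ∈ J, c k m' ω * b m' (y i)) *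
            ∑ m ∈ J', κ (y i) m * b m x := by
        simp only [mul_sub, sum_sub_distrib]
        congr 1
        simp only [sum_mul (s := (univ : Finset (Fin n)))]
        rw [sum_comm]
        refine sum_congr rfl fun k _ => ?_
        rw [mul_sum]
        exact sum_congr rfl fun i _ => by ring
      rw [hB]
      have hC : ∑ i, (g (y i) - ∑ k, g (pts k ω) * ∑ m ∈ J, c k m ω * b m (y i)) *
          ∑ m ∈ J', κ (y i) m * b m x = ∑ i, g (y i) * ∑ m ∈ J', κ (y i) m * b m x -
          ∑ i, (∑ k, g (pts k ω) * ∑ m' ∈ J, c k m' ω * b m' (y i)) *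
            ∑ m ∈ J', κ (y i) m * b m x := by
        rw [← sum_sub_distrib]
        exact sum_congr rfl fun i _ => by ring
      rw [hC]
      ring
    -- measurability
    have hRBM : BM (fun p : Ω × X => R p.1 p.2) := by
      have : (fun p : Ω × X => R p.1 p.2) = fun p : Ω × X =>
          g p.2 - ∑ k, g (pts k p.1) * ∑ m ∈ J, c k m p.1 * b m p.2 := by
        funext p
        exact hR _ _
      rw [this]
      refine bm_sub (bm_comp hg measurable_snd) (bm_sum _ fun k _ => bm_mul
        (bm_comp hg ((hpts k).comp measurable_fst)) (bm_sum _ fun m hm =>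
          bm_mul (bm_comp (hc k m) measurable_fst) (bm_comp (hbJ m hm) measurable_snd)))
    have hRω : ∀ ω, BM (R ω) := fun ω => bm_comp hRBM measurable_prodMk_left
    have hH : BM (fun p : (Ω × (Fin N → X)) × X => (R p.1.1 p.2 -
        ∑ i, R p.1.1 (p.1.2 i) * ∑ m ∈ J', κ (p.1.2 i) m * b m p.2) ^ 2) := by
      have hy : ∀ i : Fin N, Measurable fun p : (Ω × (Fin N → X)) × X => p.1.2 i :=
        fun i => (measurable_pi_apply i).comp (measurable_snd.comp measurable_fst)
      have hω : Measurable fun p : (Ω × (Fin N → X)) × X => p.1.1 :=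
        measurable_fst.comp measurable_fst
      refine bm_sq (bm_sub (bm_comp hRBM (hω.prodMk measurable_snd)) (bm_sum _ fun i _ =>
        bm_mul (bm_comp hRBM (hω.prodMk (hy i))) (bm_sum _ fun m hm =>
          bm_mul (bm_comp (hκ m) (hy i)) (bm_comp (hb m hm) measurable_snd))))
    have hF := bm_param hH lam
    have hF2 := bm_param (Y := Fin N → X) hF (Measure.pi fun _ => ν)
    have hR2 : BM (fun ω => ∫ x, R ω x ^ 2 ∂lam) := bm_param (bm_sq hRBM) lam
    have hint : ∀ ω' : Ω × (Fin N → X), (∫ x, (g x - ∑ k : Fin (n + N), g (Fin.addCases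
          (fun k (ω' : Ω × (Fin N → X)) => pts k ω'.1)
          (fun i ω' => ω'.2 i) k ω') * ∑ m ∈ J',
          Fin.addCases (motive := fun _ => ι → Ω × (Fin N → X) → ℝ)
            (fun k m ω' => (if m ∈ J then c k m ω'.1 else 0) -
            ∑ i, (∑ m' ∈ J, c k m' ω'.1 * b m' (ω'.2 i)) * κ (ω'.2 i) m)
            (fun i m ω' => κ (ω'.2 i) m) k m ω' * b m x) ^ 2 ∂lam) =
        ∫ x, (R ω'.1 x - ∑ i, R ω'.1 (ω'.2 i) * ∑ m ∈ J', κ (ω'.2 i) m * b m x) ^ 2 ∂lam := by
      rintro ⟨ω, y⟩
      congr 1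
      funext x
      rw [hkey]
    rw [integral_congr_ae (Filter.Eventually.of_forall hint),
      integral_prod _ (bm_int _ hF)]
    have hω : ∀ ω, ∫ y : Fin N → X, (∫ x, (R ω x - ∑ i, R ω (y i) *
        ∑ m ∈ J', κ (y i) m * b m x) ^ 2 ∂lam) ∂(Measure.pi fun _ => ν) ≤
        s + 2 * J'.card / (N : ℝ) * ∫ x, R ω x ^ 2 ∂lam := by
      intro ω
      refine (hstep (R ω) (hRω ω)).trans (add_le_add ?_ le_rfl)
      refine le_trans ?_ (hDs g hgG)
      have h3 : R ω = fun x => g x - ∑ m ∈ J', (∑ k, g (pts k ω) *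
          (if m ∈ J then c k m ω else 0)) * b m x := by
        funext x
        rw [hR]
        congr 1
        simp only [sum_mul]
        rw [sum_comm]
        refine sum_congr rfl fun k _ => ?_
        rw [← sum_subset hJJ, mul_sum]
        · exact sum_congr rfl fun m hm => by rw [if_pos hm]; ring
        · intro m _ hm
          rw [if_neg hm]
          ring
      rw [h3]
      exact ds_le h2 lam b J' hON g hg _
    have hR3 : ∫ ω, (∫ x, R ω x ^ 2 ∂lam) ∂P ≤ a := by
      have h4 := hbd g hgG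
      simp only [← hR] at h4
      exact h4
    calc ∫ ω, (∫ y : Fin N → X, (∫ x, (R ω x - ∑ i, R ω (y i) *
        ∑ m ∈ J', κ (y i) m * b m x) ^ 2 ∂lam) ∂(Measure.pi fun _ => ν)) ∂P
        ≤ ∫ ω, (s + 2 * J'.card / (N : ℝ) * ∫ x, R ω x ^ 2 ∂lam) ∂P :=
          integral_mono (bm_int _ hF2) (bm_int _ (bm_add (bm_const _) (bm_mul (bm_const _) hR2)))
            hω
      _ = s + 2 * J'.card / (N : ℝ) * ∫ ω, (∫ x, R ω x ^ 2 ∂lam) ∂P := by
          rw [integral_add (integrable_const _) ((bm_int _ hR2).const_mul _), integral_const,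
            integral_const_mul]
          simp
      _ ≤ s + 2 * J'.card / (N : ℝ) * a := by
          have : 0 ≤ 2 * (J'.card : ℝ) / (N : ℝ) := by positivity
          gcongr

end Pool.Agent.N799.RI
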