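import Pool.Agent.N799.RI.Def

/-!
# The tail bound in one variable by Bessel's inequality
helper249, for project RI (helper799), MP_7d5d9e_an.
-/

set_option autoImplicit false

namespace Pool.Agent.N799.RI

open MeasureTheory Finset

theorem tail_bm_mul {X : Type} [MeasurableSpace X] {f g : X → ℝ} (hf : BM f) (hg : BM g) :
    BM fun x => f x * g x := by
  obtain ⟨hf1, A, hA⟩ := hf
  obtain ⟨hg1, B, hB⟩ := hg
  refine ⟨hf1.mul hg1, A * B, fun x => ?_⟩
  rw [abs_mul]
  exact mul_le_mul (hA x) (hB x) (abs_nonneg _) (le_trans (abs_nonneg _) (hA x))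

theorem tail_bm_sub {X : Type} [MeasurableSpace X] {f g : X → ℝ} (hf : BM f) (hg : BM g) :
    BM fun x => f x - g x := by
  obtain ⟨hf1, A, hA⟩ := hf
  obtain ⟨hg1, B, hB⟩ := hg
  refine ⟨hf1.sub hg1, A + B, fun x => ?_⟩
  exact le_trans (abs_sub _ _) (add_le_add (hA x) (hB x))

theorem tail_bm_int {X : Type} [MeasurableSpace X] {lam : Measure X} [IsProbabilityMeasure lam]
    {f : X → ℝ} (hf : BM f) : Integrable f lam := by
  obtain ⟨hf1, A, hA⟩ := hf
  exact Integrable.of_bound hf1.aestronglyMeasurable A (Filter.Eventually.of_forall hA)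

theorem tail_EE_update {d : ℕ} (e : ℕ → ℝ → ℝ) (m : Fin d → ℕ) (x : Fin d → ℝ) (i : Fin d) (t : ℝ) :
    EE e m (Function.update x i t) = e (m i) t * ∏ j ∈ univ.erase i, e (m j) (x j) := by
  unfold EE
  rw [← Finset.mul_prod_erase univ _ (Finset.mem_univ i), Function.update_self]
  congr 1
  refine Finset.prod_congr rfl fun j hj => ?_
  rw [Function.update_of_ne (Finset.ne_of_mem_erase hj)]

theorem t_TAIL (h1 : S_EXP) (h2 : S_ORTH) (h3 : S_UPD) : S_TAIL := by
  intro k d e he g hg hT i l S hS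
  obtain ⟨T, hTbm, hTg, hT0⟩ := hT i l
  have hON := h2 k d e he S fun m hm => (hS m hm).1
  have hz : ∀ m ∈ S, ∫ x, T x * EE e m x ∂(Qd d) = 0 := by
    intro m hm
    have hbm : BM fun x => T x * EE e m x := tail_bm_mul hTbm (hON.1 m hm)
    rw [← h3 d i _ hbm]
    have : ∀ x : Fin d → ℝ,
        ∫ t, T (Function.update x i t) * EE e m (Function.update x i t) ∂I1 = 0 := by
      intro x
      have h4 : ∀ t, T (Function.update x i t) * EE e m (Function.update x i t) =
          (∏ j ∈ univ.erase i, e (m j) (x j)) * (T (Function.update x i t) * e (m i) t) := by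
        intro t
        rw [tail_EE_update]
        ring
      simp_rw [h4]
      rw [integral_const_mul, hT0 (m i) (hS m hm).2 x, mul_zero]
    simp_rw [this]
    simp
  have hgT : BM fun x => g x - T x := tail_bm_sub hg hTbm
  have hc : ∀ m ∈ S, ∫ x, g x * EE e m x ∂(Qd d) = ∫ x, (g x - T x) * EE e m x ∂(Qd d) := by
    intro m hm
    have h5 : ∀ x, (g x - T x) * EE e m x = g x * EE e m x - T x * EE e m x := fun x => by ring
    simp_rw [h5]
    rw [integral_sub (tail_bm_int (tail_bm_mul hg (hON.1 m hm)))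
      (tail_bm_int (tail_bm_mul hTbm (hON.1 m hm))), hz m hm, sub_zero]
  rw [Finset.sum_congr rfl fun m hm => by rw [hc m hm]]
  have h6 := h1 (Fin d → ℝ) (Qd d) (Fin d → ℕ) (EE e) S hON (fun x => g x - T x) hgT
    (fun m => ∫ x, (g x - T x) * EE e m x ∂(Qd d))
  simp only [sub_self, ne_eq, OfNat.ofNat_ne_zero, not_false_eq_true, zero_pow, Finset.sum_const_zero,
    add_zero] at h6
  have h7 : 0 ≤ Ds (Qd d) (EE e) S fun x => g x - T x := by
    rw [← h6]
    exact integral_nonneg fun x => sq_nonneg _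
  unfold Ds at h7
  have h8 : ∫ x, (g x - T x) ^ 2 ∂(Qd d) ≤ (1 / 4 ^ l) ^ k := by
    have h9 : ∀ᵐ x ∂(Qd d), (g x - T x) ^ 2 ≤ (1 / 4 ^ l : ℝ) ^ k := by
      filter_upwards [hTg] with x hx
      have h10 : (1 / 4 ^ l : ℝ) ^ k = ((1 / 2 ^ l) ^ k) ^ 2 := by
        rw [← pow_mul, mul_comm k 2, pow_mul]
        congr 1
        rw [div_pow, one_pow, ← pow_mul, mul_comm l 2, pow_mul]
        norm_num
      rw [h10, ← sq_abs (g x - T x)]
      exact pow_le_pow_left₀ (abs_nonneg _) hx 2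
    have h11 : Integrable (fun x => (g x - T x) ^ 2) (Qd d) := by
      have := tail_bm_int (lam := Qd d) (tail_bm_mul hgT hgT)
      simpa [sq] using this
    calc ∫ x, (g x - T x) ^ 2 ∂(Qd d) ≤ ∫ _x, (1 / 4 ^ l : ℝ) ^ k ∂(Qd d) :=
          integral_mono_ae h11 (integrable_const _) h9
      _ = (1 / 4 ^ l : ℝ) ^ k := by simp
  linarith

end Pool.Agent.N799.RI
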