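import Pool.Agent.N799.RI.Def

/-!
Project RI (helper799), part TAY: Taylor's formula in one variable for functions of the class `F_d^k`.
-/

set_option autoImplicit false

namespace Pool.Agent.N799.RI

open MeasureTheory Finset

namespace TAY

lemma tay (k : ℕ) : ∀ (h : ℕ → ℝ → ℝ) (p : ℝ), p ∈ Set.Ioo (0 : ℝ) 1 →
    (∀ a < k, ∀ t ∈ Set.Ioo (0 : ℝ) 1, HasDerivAt (h a) (h (a + 1) t) t) →
    (∀ t ∈ Set.Ioo (0 : ℝ) 1, |h k t| ≤ 1) → ∀ t ∈ Set.Ioo (0 : ℝ) 1,
    |h 0 t - ∑ a ∈ range k, (t - p) ^ a / a.factorial * h a p| ≤ |t - p| ^ k := by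
  induction k with
  | zero =>
    intro h p _ _ hb t ht
    simpa using hb t ht
  | succ k ih =>
    intro h p hp hd hb t ht
    have ih' := ih (fun a => h (a + 1)) p hp (fun a ha s hs => hd (a + 1) (by omega) s hs) hb
    simp only [zero_add] at ih'
    set Rf : ℝ → ℝ := fun s => h 0 s - ∑ a ∈ range (k + 1), (s - p) ^ a / a.factorial * h a p with hR
    have hRd : ∀ s ∈ Set.Ioo (0 : ℝ) 1, HasDerivAt Rf
        (h 1 s - ∑ a ∈ range k, (s - p) ^ a / a.factorial * h (a + 1) p) s := by
      intro s hs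
      have h1 : HasDerivAt (h 0) (h 1 s) s := hd 0 (by omega) s hs
      have h2 : HasDerivAt (fun s : ℝ => ∑ a ∈ range (k + 1), (s - p) ^ a / a.factorial * h a p)
          (∑ a ∈ range k, (s - p) ^ a / a.factorial * h (a + 1) p) s := by
        simp_rw [sum_range_succ' _ k]
        have h3 : HasDerivAt (fun s : ℝ => ∑ a ∈ range k, (s - p) ^ (a + 1) / (a + 1).factorial * h (a + 1) p)
            (∑ a ∈ range k, (s - p) ^ a / a.factorial * h (a + 1) p) s := by
          apply HasDerivAt.fun_sum
          intro a _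
          have h4 : HasDerivAt (fun s : ℝ => (s - p) ^ (a + 1)) (((a + 1 : ℕ) : ℝ) * (s - p) ^ a * 1) s := by
            exact ((hasDerivAt_id' s).sub_const p).fun_pow (a + 1)
          have h5 := (h4.div_const ((a + 1).factorial : ℝ)).mul_const (h (a + 1) p)
          refine h5.congr_deriv ?_
          rw [Nat.factorial_succ]
          push_cast
          have : (a.factorial : ℝ) ≠ 0 := by exact_mod_cast a.factorial_ne_zero
          have h6 : (a : ℝ) + 1 ≠ 0 := by positivity
          field_simp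
        have h7 := h3.add_const ((s - p) ^ 0 / ((0 : ℕ).factorial : ℝ) * h 0 p)
        simpa using h7
      exact h1.sub h2
    have hconv : Convex ℝ (Set.uIcc p t) := convex_uIcc p t
    have hsub : Set.uIcc p t ⊆ Set.Ioo 0 1 := by
      intro s hs
      rw [Set.mem_uIcc] at hs
      rcases hs with hs | hs
      · exact ⟨lt_of_lt_of_le hp.1 hs.1, lt_of_le_of_lt hs.2 ht.2⟩
      · exact ⟨lt_of_lt_of_le ht.1 hs.1, lt_of_le_of_lt hs.2 hp.2⟩
    have hmv := hconv.norm_image_sub_le_of_norm_hasDerivWithin_le (C := |t - p| ^ k)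
      (fun s hs => (hRd s (hsub hs)).hasDerivWithinAt) (by
        intro s hs
        rw [Real.norm_eq_abs]
        refine (ih' s (hsub hs)).trans ?_
        apply pow_le_pow_left₀ (abs_nonneg _)
        exact Set.abs_sub_left_of_mem_uIcc hs) Set.left_mem_uIcc Set.right_mem_uIcc
    have hRp : Rf p = 0 := by
      rw [hR]
      simp only
      rw [sum_range_succ', sum_eq_zero]
      · simp
      · intro a _
        simp
    rw [hRp, sub_zero, Real.norm_eq_abs, Real.norm_eq_abs] at hmv
    rw [pow_succ]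
    exact hmv

lemma isOpen_openCube (d : ℕ) : IsOpen (openCube d) := by
  have : openCube d = Set.pi Set.univ (fun _ => Set.Ioo (0 : ℝ) 1) := by
    ext x
    simp [openCube, Set.mem_pi]
  rw [this]
  exact isOpen_set_pi Set.finite_univ (fun _ _ => isOpen_Ioo)

end TAY

open TAY

theorem t_TAY : S_TAY := by
  intro d k f hk hf x hx i p hp0 hp1
  obtain ⟨-, hC, hB⟩ := hf
  set v : Fin d → ℝ := Pi.single i 1 with hv
  set x0 : Fin d → ℝ := Function.update x i 0 with hx0
  have hupd : ∀ t : ℝ, Function.update x i t = x0 + t • v := by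
    intro t
    ext j
    by_cases hj : j = i
    · subst hj; simp [hx0, hv]
    · simp [hx0, hv, hj]
  have hmem : ∀ t ∈ Set.Ioo (0 : ℝ) 1, Function.update x i t ∈ openCube d := by
    intro t ht j
    by_cases hj : j = i
    · subst hj; simpa using ht
    · simpa [hj] using hx j
  have hat : ∀ t ∈ Set.Ioo (0 : ℝ) 1, ContDiffAt ℝ k f (x0 + t • v) := by
    intro t ht
    rw [← hupd t]
    exact hC.contDiffAt ((isOpen_openCube d).mem_nhds (hmem t ht))
  set h : ℕ → ℝ → ℝ := fun a t => iteratedFDeriv ℝ a f (x0 + t • v) (fun _ => v) with hh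
  have hd : ∀ a < k, ∀ t ∈ Set.Ioo (0 : ℝ) 1, HasDerivAt (h a) (h (a + 1) t) t := by
    intro a ha t ht
    have h1 : ContDiffAt ℝ ((a : WithTop ℕ∞) + 1) f (x0 + t • v) := by
      apply (hat t ht).of_le
      exact_mod_cast ha
    rw [hh]
    simp only
    rw [← h1.deriv_fderiv_add_smul]
    have h_diff : DifferentiableAt ℝ (iteratedFDeriv ℝ a f) (x0 + t • v) := by
      apply (hat t ht).differentiableAt_iteratedFDeriv
      exact_mod_cast ha
    refine DifferentiableAt.hasDerivAt ?_
    fun_prop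
  have hb : ∀ t ∈ Set.Ioo (0 : ℝ) 1, |h k t| ≤ 1 := by
    intro t ht
    have := hB k le_rfl (fun _ => i) _ (hmem t ht)
    rw [hupd] at this
    exact this
  have := tay k h p ⟨hp0, hp1⟩ hd hb (x i) (hx i)
  have e0 : h 0 (x i) = f x := by
    rw [hh]
    simp only [iteratedFDeriv_zero_apply]
    rw [← hupd, Function.update_eq_self]
  rw [e0] at this
  convert this using 4 with a _
  rw [hh]
  simp only
  rw [← hupd]

end Pool.Agent.N799.RI
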