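import Pool.Agent.N799.RI.Def

/-!
# Project RI (helper799), MP_7d5d9e_an, part TH: the local Taylor polynomials give Tail
Authors: helper163, helper799.
-/

set_option autoImplicit false

namespace Pool.Agent.N799.RI

open MeasureTheory Finset

namespace THx

variable {X : Type} [MeasurableSpace X]

theorem bm_mul {f g : X → ℝ} (hf : BM f) (hg : BM g) : BM fun x => f x * g x := by
  obtain ⟨h1, A, hA⟩ := hf
  obtain ⟨h2, B, hB⟩ := hg
  refine ⟨h1.mul h2, A * B, fun x => ?_⟩
  rw [abs_mul]
  exact mul_le_mul (hA x) (hB x) (abs_nonneg _) ((abs_nonneg _).trans (hA x))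

theorem bm_sum {ι : Type} (s : Finset ι) {f : ι → X → ℝ} (hf : ∀ i ∈ s, BM (f i)) :
    BM fun x => ∑ i ∈ s, f i x := by
  classical
  induction s using Finset.induction_on with
  | empty => exact ⟨by simp, 0, fun x => by simp⟩
  | insert a s ha ih =>
    obtain ⟨h1, A, hA⟩ := hf a (mem_insert_self _ _)
    obtain ⟨h2, B, hB⟩ := ih fun i hi => hf i (mem_insert_of_mem hi)
    refine ⟨?_, A + B, fun x => ?_⟩
    · simp only [sum_insert ha]
      exact h1.add h2
    · simp only [sum_insert ha]
      exact (abs_add_le _ _).trans (add_le_add (hA x) (hB x))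

theorem bm_int {f : X → ℝ} (hf : BM f) (μ : Measure X) [IsProbabilityMeasure μ] :
    Integrable f μ := by
  obtain ⟨h1, A, hA⟩ := hf
  exact Integrable.of_bound h1.aestronglyMeasurable A (Filter.Eventually.of_forall fun x => by
    rw [Real.norm_eq_abs]; exact hA x)

/-- a continuous function on a dyadic interval, extended by zero, is bounded and measurable -/
theorem bm_dy (l j : ℕ) {q : ℝ → ℝ} (hq : Continuous q) : BM ((dy l j).indicator q) := by
  have hm : MeasurableSet (dy l j) := measurableSet_Ico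
  refine ⟨hq.measurable.indicator hm, ?_⟩
  obtain ⟨B, hB⟩ := (isCompact_Icc (a := (j : ℝ) / 2 ^ l) (b := ((j : ℝ) + 1) / 2 ^ l)).exists_bound_of_continuousOn
    hq.continuousOn
  refine ⟨max B 0, fun x => ?_⟩
  by_cases hx : x ∈ dy l j
  · rw [Set.indicator_of_mem hx, ← Real.norm_eq_abs]
    exact (hB x (Set.Ico_subset_Icc_self hx)).trans (le_max_left _ _)
  · rw [Set.indicator_of_notMem hx, abs_zero]
    exact le_max_right _ _

/-- the tail property for polynomials -/
theorem tail_poly {k : ℕ} {e : ℕ → ℝ → ℝ} (he : IsBasis k e) (l j m : ℕ) (hj : j < 2 ^ l)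
    (hm : k * 2 ^ l ≤ m) (P : Polynomial ℝ) (hP : P.natDegree < k) :
    ∫ t, (dy l j).indicator (fun t => P.eval t) t * e m t ∂I1 = 0 := by
  have h1 : ∀ t, (dy l j).indicator (fun t => P.eval t) t * e m t =
      ∑ a ∈ range k, P.coeff a * ((dy l j).indicator (fun t => t ^ a) t * e m t) := by
    intro t
    by_cases ht : t ∈ dy l j
    · simp only [Set.indicator_of_mem ht]
      rw [Polynomial.eval_eq_sum_range' hP, sum_mul]
      exact sum_congr rfl fun a _ => by ring
    · simp only [Set.indicator_of_notMem ht]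
      simp
  simp_rw [h1]
  rw [integral_finsetSum _ fun a _ => ?_]
  · refine sum_eq_zero fun a ha => ?_
    rw [integral_const_mul, he.tail l j a m hj (mem_range.1 ha) hm, mul_zero]
  · exact (bm_int (bm_mul (bm_dy l j (continuous_pow a)) (he.bm m)) I1).const_mul _

theorem isOpen_openCube (d : ℕ) : IsOpen (openCube d) := by
  have : openCube d = Set.pi Set.univ fun _ => Set.Ioo (0 : ℝ) 1 := by
    ext x
    simp [openCube, Set.mem_pi]
  rw [this]
  exact isOpen_set_pi Set.finite_univ fun _ _ => isOpen_Ioo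

theorem ae_openCube (d : ℕ) : ∀ᵐ x ∂(Qd d), x ∈ openCube d := by
  have h1 : ∀ i : Fin d, ∀ᵐ x ∂(Qd d), x i ∈ Set.Ioo (0 : ℝ) 1 := by
    intro i
    have h2 : ∀ᵐ t ∂I1, t ∈ Set.Ioo (0 : ℝ) 1 := ae_restrict_mem measurableSet_Ioo
    exact (Measure.tendsto_eval_ae_ae (μ := fun _ : Fin d => I1) (i := i)).eventually h2
  filter_upwards [Filter.eventually_all.2 h1] with x hx
  exact fun i => hx i

theorem clamp_of_mem {d : ℕ} {x : Fin d → ℝ} (hx : x ∈ openCube d) : clamp x = x := by
  funext i
  have := hx i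
  simp only [clamp]
  rw [min_eq_right this.2.le, max_eq_right this.1.le]

theorem update_mem {d : ℕ} {x : Fin d → ℝ} (hx : x ∈ openCube d) (i : Fin d) {p : ℝ} (h0 : 0 < p)
    (h1 : p < 1) : Function.update x i p ∈ openCube d := by
  intro j
  by_cases h : j = i
  · subst h
    rw [Function.update_self]
    exact ⟨h0, h1⟩
  · rw [Function.update_of_ne h]
    exact hx j

theorem update_mem_iff {d : ℕ} (x : Fin d → ℝ) (i : Fin d) {p q : ℝ} (h0 : 0 < p)
    (h1 : p < 1) (h0' : 0 < q) (h1' : q < 1) :
    Function.update x i p ∈ openCube d ↔ Function.update x i q ∈ openCube d := by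
  constructor
  · intro h
    have := update_mem h i h0' h1'
    rwa [Function.update_idem] at this
  · intro h
    have := update_mem h i h0 h1
    rwa [Function.update_idem] at this

/-- the derivative of order `a` in the direction `i` -/
noncomputable def DD {d : ℕ} (f : (Fin d → ℝ) → ℝ) (i : Fin d) (a : ℕ) (y : Fin d → ℝ) : ℝ :=
  iteratedFDeriv ℝ a f y (fun _ => Pi.single i 1)

theorem DD_cont {d k : ℕ} {f : (Fin d → ℝ) → ℝ} (hf : f ∈ FF d k) (i : Fin d) {a : ℕ} (ha : a ≤ k) :
    ContinuousOn (DD f i a) (openCube d) := by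
  have h1 : ContinuousOn (iteratedFDeriv ℝ a f) (openCube d) := by
    have h2 := hf.2.1.continuousOn_iteratedFDerivWithin (m := a) (by exact_mod_cast ha)
      (isOpen_openCube d).uniqueDiffOn
    exact h2.congr fun x hx => (iteratedFDerivWithin_of_isOpen a (isOpen_openCube d) hx).symm
  have h3 : Continuous fun T : ContinuousMultilinearMap ℝ (fun _ : Fin a => (Fin d → ℝ)) ℝ =>
      T (fun _ => Pi.single i 1) := continuous_eval_const _
  exact h3.comp_continuousOn h1

/-- the coefficient functions -/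
noncomputable def GG {d : ℕ} (f : (Fin d → ℝ) → ℝ) (i : Fin d) (p : ℝ) (a : ℕ) :
    (Fin d → ℝ) → ℝ := (openCube d).indicator fun x => DD f i a (Function.update x i p)

theorem GG_bm {d k : ℕ} {f : (Fin d → ℝ) → ℝ} (hf : f ∈ FF d k) (i : Fin d) {a : ℕ} (ha : a ≤ k)
    {p : ℝ} (h0 : 0 < p) (h1 : p < 1) : BM (GG f i p a) := by
  classical
  have hc : ContinuousOn (fun x => DD f i a (Function.update x i p)) (openCube d) :=
    (DD_cont hf i ha).comp (continuous_id.update i continuous_const).continuousOn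
      fun x hx => update_mem hx i h0 h1
  constructor
  · unfold GG
    rw [← Set.piecewise_eq_indicator]
    exact hc.measurable_piecewise continuousOn_const (isOpen_openCube d).measurableSet
  · refine ⟨1, fun x => ?_⟩
    by_cases hx : x ∈ openCube d
    · rw [GG, Set.indicator_of_mem hx]
      exact hf.2.2 a ha (fun _ => i) _ (update_mem hx i h0 h1)
    · rw [GG, Set.indicator_of_notMem hx, abs_zero]
      exact zero_le_one

theorem mem_dy {t : ℝ} (h0 : 0 < t) (h1 : t < 1) (l : ℕ) :
    ∃ j < 2 ^ l, t ∈ dy l j ∧ ∀ j', t ∈ dy l j' → j' = j := by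
  have hp : (0 : ℝ) < 2 ^ l := by positivity
  have hiff : ∀ j : ℕ, t ∈ dy l j ↔ ⌊t * 2 ^ l⌋₊ = j := by
    intro j
    rw [Nat.floor_eq_iff (by positivity)]
    simp only [dy, Set.mem_Ico]
    rw [div_le_iff₀ hp, lt_div_iff₀ hp]
  refine ⟨⌊t * 2 ^ l⌋₊, ?_, (hiff _).2 rfl, fun j' hj' => ((hiff j').1 hj').symm⟩
  rw [Nat.floor_lt (by positivity)]
  push_cast
  nlinarith

end THx

open THx

theorem t_TH (h1 : S_TAY) (_h2 : S_CL) : S_TH := by
  intro d k e f hk he hf i l
  obtain ⟨p, hp⟩ : ∃ p : ℕ → ℝ, p = fun j : ℕ => ((j : ℝ) + 1 / 2) / 2 ^ l := ⟨_, rfl⟩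
  have h2l : (0 : ℝ) < 2 ^ l := by positivity
  have hp0 : ∀ j, 0 < p j := by
    intro j
    rw [hp]
    positivity
  have hp1 : ∀ j, j < 2 ^ l → p j < 1 := by
    intro j hj
    rw [hp]
    show ((j : ℝ) + 1 / 2) / 2 ^ l < 1
    rw [div_lt_one h2l]
    have : (j : ℝ) + 1 ≤ 2 ^ l := by exact_mod_cast hj
    linarith
  refine ⟨fun x => ∑ j ∈ range (2 ^ l), ∑ a ∈ range k,
    (dy l j).indicator (fun t => (t - p j) ^ a / a.factorial) (x i) * GG f i (p j) a x, ?_, ?_, ?_⟩
  · refine bm_sum _ fun j hj => bm_sum _ fun a ha => bm_mul ?_ (GG_bm hf i (mem_range.1 ha).le (hp0 j)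
      (hp1 j (mem_range.1 hj)))
    obtain ⟨hm, B, hB⟩ := bm_dy l j (q := fun t => (t - p j) ^ a / a.factorial) (by fun_prop)
    exact ⟨hm.comp (measurable_pi_apply i), B, fun x => hB (x i)⟩
  · filter_upwards [ae_openCube d] with x hx
    rw [clamp_of_mem hx]
    obtain ⟨j, hj, hxj, huniq⟩ := mem_dy (hx i).1 (hx i).2 l
    have hT : ∑ j ∈ range (2 ^ l), ∑ a ∈ range k,
        (dy l j).indicator (fun t => (t - p j) ^ a / a.factorial) (x i) * GG f i (p j) a x =
        ∑ a ∈ range k, (x i - p j) ^ a / a.factorial *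
          iteratedFDeriv ℝ a f (Function.update x i (p j)) (fun _ => Pi.single i 1) := by
      rw [sum_eq_single_of_mem j (mem_range.2 hj)]
      · refine sum_congr rfl fun a _ => ?_
        rw [Set.indicator_of_mem hxj, GG, Set.indicator_of_mem hx]
        rfl
      · intro j' _ hj'
        refine sum_eq_zero fun a _ => ?_
        rw [Set.indicator_of_notMem fun h => hj' (huniq j' h), zero_mul]
    rw [hT]
    refine (h1 d k f hk hf x hx i (p j) (hp0 j) (hp1 j hj)).trans ?_
    refine pow_le_pow_left₀ (abs_nonneg _) ?_ _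
    have h3 : (j : ℝ) / 2 ^ l ≤ x i ∧ x i < ((j : ℝ) + 1) / 2 ^ l := hxj
    have h4 : p j = (j : ℝ) / 2 ^ l + 1 / 2 * (1 / 2 ^ l) := by
      rw [hp]
      ring
    have h5 : ((j : ℝ) + 1) / 2 ^ l = (j : ℝ) / 2 ^ l + 1 / 2 ^ l := by ring
    have h6 : (0 : ℝ) < 1 / 2 ^ l := by positivity
    rw [h5] at h3
    rw [abs_le, h4]
    constructor <;> linarith [h3.1, h3.2]
  · intro m hm x
    have h3 : ∀ᵐ t ∂I1, (∑ j ∈ range (2 ^ l), ∑ a ∈ range k,
        (dy l j).indicator (fun t => (t - p j) ^ a / a.factorial) (Function.update x i t i) *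
          GG f i (p j) a (Function.update x i t)) * e m t =
        ∑ j ∈ range (2 ^ l), ∑ a ∈ range k, GG f i (p j) a (Function.update x i (p j)) / a.factorial *
          ((dy l j).indicator (fun t => (((Polynomial.X - Polynomial.C (p j)) ^ a : Polynomial ℝ)).eval t) t
            * e m t) := by
      have h4 : ∀ᵐ t ∂I1, t ∈ Set.Ioo (0 : ℝ) 1 := ae_restrict_mem measurableSet_Ioo
      filter_upwards [h4] with t ht
      rw [sum_mul]
      refine sum_congr rfl fun j hj => ?_
      rw [sum_mul]
      refine sum_congr rfl fun a _ => ?_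
      have h5 : GG f i (p j) a (Function.update x i t) =
          GG f i (p j) a (Function.update x i (p j)) := by
        have hiff := update_mem_iff x i (p := t) (q := p j) ht.1 ht.2 (hp0 j)
          (hp1 j (mem_range.1 hj))
        unfold GG
        by_cases h : Function.update x i t ∈ openCube d
        · rw [Set.indicator_of_mem h, Set.indicator_of_mem (hiff.1 h), Function.update_idem,
            Function.update_idem]
        · rw [Set.indicator_of_notMem h, Set.indicator_of_notMem fun h' => h (hiff.2 h')]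
      rw [h5, Function.update_self]
      by_cases h6 : t ∈ dy l j
      · rw [Set.indicator_of_mem h6, Set.indicator_of_mem h6]
        simp only [Polynomial.eval_pow, Polynomial.eval_sub, Polynomial.eval_X, Polynomial.eval_C]
        ring
      · rw [Set.indicator_of_notMem h6, Set.indicator_of_notMem h6]
        ring
    rw [integral_congr_ae h3]
    have hint : ∀ j a, Integrable (fun t => GG f i (p j) a (Function.update x i (p j)) /
        (a.factorial : ℝ) * ((dy l j).indicator (fun t =>
          (((Polynomial.X - Polynomial.C (p j)) ^ a : Polynomial ℝ)).eval t) t * e m t)) I1 := by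
      intro j a
      exact (bm_int (bm_mul (bm_dy l j (Polynomial.continuous _)) (he.bm m)) I1).const_mul _
    rw [integral_finsetSum _ fun j _ => integrable_finsetSum _ fun a _ => hint j a]
    refine sum_eq_zero fun j hj => ?_
    rw [integral_finsetSum _ fun a _ => hint j a]
    refine sum_eq_zero fun a ha => ?_
    rw [integral_const_mul, tail_poly he l j m (mem_range.1 hj) hm _ ?_, mul_zero]
    rw [Polynomial.natDegree_pow, Polynomial.natDegree_X_sub_C, mul_one]
    exact mem_range.1 ha

end Pool.Agent.N799.RI
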