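import Pool.Agent.N799.RI.Def

/-!
# Project RI (helper799): UPD, integration over one more variable

By helper711.
-/

set_option autoImplicit false

namespace Pool.Agent.N799.RI

open MeasureTheory Finset

/-- replacing a coordinate by an independent one preserves the measure -/
theorem upd_mp (d : ℕ) (i : Fin d) :
    MeasurePreserving (fun p : (Fin d → ℝ) × ℝ => Function.update p.1 i p.2)
      ((Qd d).prod I1) (Qd d) := by
  refine ⟨measurable_update', ?_⟩
  symm
  unfold Qd
  refine Measure.pi_eq fun s hs => ?_
  rw [Measure.map_apply measurable_update' (MeasurableSet.univ_pi hs)]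
  have h1 : (fun p : (Fin d → ℝ) × ℝ => Function.update p.1 i p.2) ⁻¹' (Set.univ.pi s) =
      (Set.univ.pi (Function.update s i Set.univ)) ×ˢ s i := by
    ext p
    simp only [Set.mem_preimage, Set.mem_univ_pi, Set.mem_prod]
    constructor
    · intro h
      refine ⟨fun j => ?_, ?_⟩
      · by_cases hj : j = i
        · subst hj
          rw [Function.update_self]
          trivial
        · have h2 := h j
          rw [Function.update_of_ne hj] at h2
          rw [Function.update_of_ne hj]
          exact h2
      · have h2 := h i
        rwa [Function.update_self] at h2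
    · rintro ⟨h2, h3⟩ j
      by_cases hj : j = i
      · subst hj
        rw [Function.update_self]
        exact h3
      · have h4 := h2 j
        rw [Function.update_of_ne hj] at h4
        rw [Function.update_of_ne hj]
        exact h4
  rw [h1, Measure.prod_prod, Measure.pi_pi]
  rw [← Finset.mul_prod_erase univ _ (Finset.mem_univ i),
    ← Finset.mul_prod_erase univ (fun j => I1 (s j)) (Finset.mem_univ i), Function.update_self,
    measure_univ, one_mul, mul_comm]
  congr 1
  refine Finset.prod_congr rfl fun j hj => ?_
  rw [Function.update_of_ne (Finset.ne_of_mem_erase hj)]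

theorem t_UPD : S_UPD := by
  intro d i F hF
  obtain ⟨hm, B, hB⟩ := hF
  have h1 := upd_mp d i
  have h2 : ∫ p : (Fin d → ℝ) × ℝ, F (Function.update p.1 i p.2) ∂((Qd d).prod I1) =
      ∫ x, F x ∂(Qd d) := by
    have h3 := integral_map (μ := (Qd d).prod I1) h1.measurable.aemeasurable
      (f := F) hm.aestronglyMeasurable
    rw [h1.map_eq] at h3
    exact h3.symm
  rw [← h2, integral_prod]
  refine Integrable.of_bound (hm.comp h1.measurable).aestronglyMeasurable B ?_
  exact Filter.Eventually.of_forall fun p => by
    rw [Real.norm_eq_abs]
    exact hB _

end Pool.Agent.N799.RI
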