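import Pool.Agent.N799.RI.Def

/-!
# Variance of the mean of independent bounded variables (helper344)
-/

set_option autoImplicit false

namespace Pool.Agent.N799.RI

open MeasureTheory Finset ProbabilityTheory

theorem t_VAR : S_VAR := by
  intro X _ ν _ h hh N hN
  obtain ⟨hm, B, hB⟩ := hh
  obtain ⟨μ, hμ⟩ : ∃ μ : Measure (Fin N → X), μ = Measure.pi fun _ => ν := ⟨_, rfl⟩
  rw [← hμ]
  have hprob : IsProbabilityMeasure μ := by rw [hμ]; infer_instance
  have hN0 : (0 : ℝ) < N := by exact_mod_cast hN
  have hmap : ∀ i : Fin N, μ.map (fun y => y i) = ν := by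
    intro i
    rw [hμ]
    exact (measurePreserving_eval (fun _ : Fin N => ν) i).map_eq
  have hint : ∀ (g : X → ℝ), Measurable g → ∀ i : Fin N,
      ∫ y, g (y i) ∂μ = ∫ x, g x ∂ν := by
    intro g hg i
    rw [← hmap i, integral_map (measurable_pi_apply i).aemeasurable hg.aestronglyMeasurable]
  have hL2 : ∀ i : Fin N, MemLp (fun y : Fin N → X => h (y i)) 2 μ := fun i =>
    MemLp.of_bound (hm.comp (measurable_pi_apply i)).aestronglyMeasurable B
      (Filter.Eventually.of_forall fun y => hB (y i))
  have hL2ν : MemLp h 2 ν :=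
    MemLp.of_bound hm.aestronglyMeasurable B (Filter.Eventually.of_forall fun y => hB y)
  have hI : ∀ i : Fin N, Integrable (fun y : Fin N → X => h (y i)) μ := fun i =>
    (hL2 i).integrable (by norm_num)
  have hind : iIndepFun (fun (i : Fin N) (y : Fin N → X) => h (y i)) μ := by
    rw [hμ]
    exact iIndepFun_pi (fun _ => hm.aemeasurable)
  have hvar : Var[∑ i : Fin N, fun y : Fin N → X => h (y i); μ] =
      ∑ i : Fin N, Var[fun y : Fin N → X => h (y i); μ] := by
    refine IndepFun.variance_sum (fun i _ => hL2 i) ?_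
    intro i _ j _ hij
    exact hind.indepFun hij
  have hvi : ∀ i : Fin N, Var[fun y : Fin N → X => h (y i); μ] = Var[h; ν] := by
    intro i
    rw [variance_eq_integral (hL2 i).1.aemeasurable, variance_eq_integral hm.aemeasurable]
    rw [hint h hm i]
    exact hint (fun x => (h x - ∫ x, h x ∂ν) ^ 2) ((hm.sub_const _).pow_const 2) i
  have hvle : Var[h; ν] ≤ ∫ x, h x ^ 2 ∂ν := by
    have := variance_le_expectation_sq (X := h) (μ := ν) hm.aestronglyMeasurable
    simpa using this
  have hS : ∫ y, (∑ i : Fin N, fun y : Fin N → X => h (y i)) y ∂μ = N * ∫ x, h x ∂ν := by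
    simp only [Finset.sum_apply]
    rw [integral_finsetSum _ (fun i _ => hI i), Finset.sum_congr rfl (fun i _ => hint h hm i),
      Finset.sum_const, Finset.card_univ, Fintype.card_fin, nsmul_eq_mul]
  have hmeas : AEMeasurable (∑ i : Fin N, fun y : Fin N → X => h (y i)) μ := by
    refine Measurable.aemeasurable ?_
    have h0 : (∑ i : Fin N, fun y : Fin N → X => h (y i)) = fun y => ∑ i, h (y i) := by
      funext y
      simp only [Finset.sum_apply]
    rw [h0]
    exact Finset.measurable_sum _ fun i _ => hm.comp (measurable_pi_apply i)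
  have hkey : ∫ y : Fin N → X, ((1 / (N : ℝ)) * ∑ i, h (y i) - ∫ x, h x ∂ν) ^ 2 ∂μ =
      (1 / (N : ℝ)) ^ 2 * Var[∑ i : Fin N, fun y : Fin N → X => h (y i); μ] := by
    rw [variance_eq_integral hmeas, hS, ← integral_const_mul]
    refine integral_congr_ae (Filter.Eventually.of_forall fun y => ?_)
    simp only [Finset.sum_apply]
    field_simp
  rw [hkey, hvar, Finset.sum_congr rfl (fun i _ => hvi i), Finset.sum_const, Finset.card_univ,
    Fintype.card_fin, nsmul_eq_mul]
  have h1 : (1 / (N : ℝ)) ^ 2 * (N * Var[h; ν]) = 1 / (N : ℝ) * Var[h; ν] := by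
    field_simp
  rw [h1]
  exact mul_le_mul_of_nonneg_left hvle (by positivity)

end Pool.Agent.N799.RI
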